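import Mathlib

/-!
# Powers of numbers near one: remainder of the linear approximation
-/

set_option autoImplicit false

namespace Pool.Agent.L5helper35.FC

/-- the remainder of the linear approximation of `(1 + x) ^ m` -/
noncomputable def T (m : ℕ) (x : ℝ) : ℝ := (1 + x) ^ m - 1 - m * x

lemma T_succ (m : ℕ) (x : ℝ) : T (m + 1) x = (1 + x) * T m x + m * x ^ 2 := by
  unfold T
  push_cast
  ring

lemma T_zero (x : ℝ) : T 0 x = 0 := by simp [T]

lemma T_one (x : ℝ) : T 1 x = 0 := by simp [T]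

lemma T_bounds {M : ℕ} {x : ℝ} (h : M * |x| ≤ 1 / 8) (m : ℕ) (hm : m ≤ M) :
    7 / 16 * (m * (m - 1)) * x ^ 2 ≤ T m x ∧ T m x ≤ 4 / 7 * (m * (m - 1)) * x ^ 2 := by
  induction m with
  | zero => simp [T]
  | succ m ih =>
    obtain ⟨h1, h2⟩ := ih (by omega)
    rw [T_succ]
    have hmx : ((m : ℝ) + 1) * |x| ≤ 1 / 8 := by
      have : ((m : ℝ) + 1) ≤ M := by exact_mod_cast hm
      exact (mul_le_mul_of_nonneg_right this (abs_nonneg x)).trans h
    have hx0 := abs_nonneg x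
    have hm0 : (0 : ℝ) ≤ m := Nat.cast_nonneg m
    have hx1 : |x| ≤ 1 / 8 := by nlinarith
    have hxl : -|x| ≤ x := neg_abs_le x
    have hxu : x ≤ |x| := le_abs_self x
    have hsq : 0 ≤ x ^ 2 := sq_nonneg x
    have hT0 : 0 ≤ T m x := by
      rcases Nat.eq_zero_or_pos m with rfl | hm1
      · simp [T]
      · have : (1 : ℝ) ≤ m := by exact_mod_cast hm1
        refine le_trans ?_ h1
        have : 0 ≤ (m : ℝ) * (m - 1) := mul_nonneg hm0 (by linarith)
        positivity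
    have hmm : 0 ≤ (m : ℝ) * (m - 1) := by
      rcases Nat.eq_zero_or_pos m with rfl | hm1
      · simp
      · have : (1 : ℝ) ≤ m := by exact_mod_cast hm1
        exact mul_nonneg hm0 (by linarith)
    have hA : (m : ℝ) * x ^ 2 * (((m : ℝ) + 1) * |x|) ≤ (m : ℝ) * x ^ 2 * (1 / 8) :=
      mul_le_mul_of_nonneg_left hmx (by positivity)
    have hB : 0 ≤ (m : ℝ) * x ^ 2 * |x| := by positivity
    constructor
    · have h3 : (1 - |x|) * (7 / 16 * (m * (m - 1)) * x ^ 2) ≤ (1 + x) * T m x := by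
        calc (1 - |x|) * (7 / 16 * (m * (m - 1)) * x ^ 2) ≤ (1 - |x|) * T m x :=
              mul_le_mul_of_nonneg_left h1 (by linarith)
          _ ≤ (1 + x) * T m x := mul_le_mul_of_nonneg_right (by linarith) hT0
      push_cast
      nlinarith
    · have h3 : (1 + x) * T m x ≤ (1 + |x|) * (4 / 7 * (m * (m - 1)) * x ^ 2) := by
        calc (1 + x) * T m x ≤ (1 + |x|) * T m x := mul_le_mul_of_nonneg_right (by linarith) hT0
          _ ≤ _ := mul_le_mul_of_nonneg_left h2 (by linarith)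
      push_cast
      nlinarith

lemma T_nonneg {m : ℕ} {x : ℝ} (h : m * |x| ≤ 1 / 8) : 0 ≤ T m x := by
  refine le_trans ?_ (T_bounds h m le_rfl).1
  rcases Nat.eq_zero_or_pos m with rfl | hm1
  · simp
  · have : (1 : ℝ) ≤ m := by exact_mod_cast hm1
    have : 0 ≤ (m : ℝ) * (m - 1) := mul_nonneg (by linarith) (by linarith)
    positivity

lemma T_third {M : ℕ} {x : ℝ} (h : M * |x| ≤ 1 / 8) (m : ℕ) (hm : m ≤ M) :
    |T m x - (m : ℝ) * (m - 1) / 2 * x ^ 2| ≤ (m : ℝ) ^ 3 * |x| ^ 3 := by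
  induction m with
  | zero => simp [T]
  | succ m ih =>
    have h0 := ih (by omega)
    have h1 := T_bounds h m (by omega)
    have hm0 : (0 : ℝ) ≤ m := Nat.cast_nonneg m
    have hx0 := abs_nonneg x
    have hmx : (m : ℝ) * |x| ≤ 1 / 8 := by
      have : (m : ℝ) ≤ M := by exact_mod_cast (by omega : m ≤ M)
      exact (mul_le_mul_of_nonneg_right this (abs_nonneg x)).trans h
    have hT0 : 0 ≤ T m x := T_nonneg hmx
    have hid : T (m + 1) x - ((m + 1 : ℕ) : ℝ) * (((m + 1 : ℕ) : ℝ) - 1) / 2 * x ^ 2 =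
        (T m x - (m : ℝ) * (m - 1) / 2 * x ^ 2) + x * T m x := by
      rw [T_succ]
      push_cast
      ring
    rw [hid]
    refine (abs_add_le _ _).trans ?_
    have h2 : |x * T m x| ≤ (m : ℝ) ^ 2 * |x| ^ 3 := by
      rw [abs_mul, abs_of_nonneg hT0]
      have h3 : T m x ≤ (m : ℝ) ^ 2 * |x| ^ 2 := by
        refine h1.2.trans ?_
        rw [sq_abs]
        have : 4 / 7 * ((m : ℝ) * (m - 1)) ≤ (m : ℝ) ^ 2 := by nlinarith
        exact mul_le_mul_of_nonneg_right this (sq_nonneg x)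
      calc |x| * T m x ≤ |x| * ((m : ℝ) ^ 2 * |x| ^ 2) := mul_le_mul_of_nonneg_left h3 hx0
        _ = _ := by ring
    have h4 : 0 ≤ |x| ^ 3 := by positivity
    calc |T m x - (m : ℝ) * (m - 1) / 2 * x ^ 2| + |x * T m x|
        ≤ (m : ℝ) ^ 3 * |x| ^ 3 + (m : ℝ) ^ 2 * |x| ^ 3 := add_le_add h0 h2
      _ ≤ (((m + 1 : ℕ) : ℝ)) ^ 3 * |x| ^ 3 := by
        rw [← add_mul]
        apply mul_le_mul_of_nonneg_right _ h4
        push_cast
        nlinarith

lemma T_neg_lt {x : ℝ} (hx : 0 < x) {M : ℕ} (h : M * |x| ≤ 1 / 8) :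
    ∀ m : ℕ, 3 ≤ m → m ≤ M → T m (-x) < T m x := by
  intro m hm
  induction m, hm using Nat.le_induction with
  | base =>
    intro _
    unfold T
    push_cast
    nlinarith [pow_pos hx 3]
  | succ m hm ih =>
    intro hM
    rw [T_succ, T_succ]
    have h1 := ih (by omega)
    have hmx : (m : ℝ) * |x| ≤ 1 / 8 := by
      have : (m : ℝ) ≤ M := by exact_mod_cast (by omega : m ≤ M)
      exact (mul_le_mul_of_nonneg_right this (abs_nonneg x)).trans h
    have h2 : 0 ≤ T m x := T_nonneg hmx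
    have h3 : 0 ≤ T m (-x) := T_nonneg (by rw [abs_neg]; exact hmx)
    nlinarith [mul_nonneg hx.le h2, mul_nonneg hx.le h3]

/-- the whole deviation -/
lemma mu_bounds {m : ℕ} {x : ℝ} (h : m * |x| ≤ 1 / 128) :
    63 / 64 * (m * |x|) ≤ |(1 + x) ^ m - 1| ∧ |(1 + x) ^ m - 1| ≤ 65 / 64 * (m * |x|) := by
  have h8 : (m : ℝ) * |x| ≤ 1 / 8 := h.trans (by norm_num)
  have h1 := T_bounds h8 m le_rfl
  have h0 := T_nonneg h8
  have hm0 : (0 : ℝ) ≤ m := Nat.cast_nonneg m
  have hx0 := abs_nonneg x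
  have h2 : T m x ≤ 1 / 64 * (m * |x|) := by
    refine h1.2.trans ?_
    have h3 : 4 / 7 * ((m : ℝ) * (m - 1)) * x ^ 2 ≤ (m * |x|) * (m * |x|) := by
      have : x ^ 2 = |x| * |x| := by rw [← sq, sq_abs]
      rw [this]
      have h4 : 0 ≤ |x| * |x| := by positivity
      have h5 : 4 / 7 * ((m : ℝ) * (m - 1)) ≤ m * m := by nlinarith
      calc 4 / 7 * ((m : ℝ) * (m - 1)) * (|x| * |x|) ≤ (m * m) * (|x| * |x|) :=
            mul_le_mul_of_nonneg_right h5 h4
        _ = _ := by ring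
    have h6 : 0 ≤ (m : ℝ) * |x| := by positivity
    nlinarith
  have h3 : (1 + x) ^ m - 1 = m * x + T m x := by unfold T; ring
  have h4 : |(m : ℝ) * x| = m * |x| := by rw [abs_mul, abs_of_nonneg hm0]
  rw [h3]
  constructor
  · have := abs_sub_abs_le_abs_sub ((m : ℝ) * x) (-T m x)
    rw [sub_neg_eq_add, abs_neg, abs_of_nonneg h0, h4] at this
    linarith
  · have := abs_add_le ((m : ℝ) * x) (T m x)
    rw [abs_of_nonneg h0, h4] at this
    linarith

end Pool.Agent.L5helper35.FC
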