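import Mathlib
import Pool.Agent.L5helper35.FC.Taylor

/-!
# Two bases `w ^ i ± 1`, `w ^ j ± 1` and a power of `w`: `i` and `j` near each other
-/

set_option autoImplicit false

namespace Pool.Agent.L5helper35.FC

/-- a sign -/
def Sgn (e : ℤ) : Prop := e = 1 ∨ e = -1

lemma Sgn.abs {e : ℤ} (h : Sgn e) : |(e : ℝ)| = 1 := by
  rcases h with rfl | rfl <;> simp

lemma Sgn.sq {e : ℤ} (h : Sgn e) : (e : ℝ) * e = 1 := by
  rcases h with rfl | rfl <;> norm_num

structure Data (w i j m n E : ℕ) (e f : ℤ) : Prop where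
  w2 : 2 ≤ w
  wev : Even w
  i1 : 1 ≤ i
  ij : i ≤ j
  m2 : 2 ≤ m
  n2 : 2 ≤ n
  mE : m ≤ E
  nE : n ≤ E
  nt : ¬ (m = 2 ∧ n = 2)
  he : Sgn e
  hf : Sgn f
  hef : i = j → e = -f
  H : 64 * E ^ 2 * w ^ (j - i) ≤ w ^ i

lemma int_zero {D : ℤ} {R : ℤ} {θ : ℝ} (h : (D : ℝ) + θ = R) (hθ : |θ| < 1) : θ = 0 ∧ D = R := by
  have h1 : θ = ((R - D : ℤ) : ℝ) := by push_cast; linarith
  have h2 : |((R - D : ℤ) : ℝ)| < 1 := by rw [← h1]; exact hθ
  have h3 : |R - D| < 1 := by
    have : ((|R - D| : ℤ) : ℝ) < 1 := by push_cast; push_cast at h2; exact h2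
    exact_mod_cast this
  have h4 : R - D = 0 := Int.abs_lt_one_iff.1 h3
  refine ⟨by rw [h1, h4]; simp, by omega⟩

section

variable {w i j m n E : ℕ} {e f : ℤ}

/-- the real number `w ^ i` -/
noncomputable def Wr (w i : ℕ) : ℝ := (w : ℝ) ^ i

lemma Data.pos (h : Data w i j m n E e f) (k : ℕ) : 0 < Wr w k := by
  have := h.w2
  unfold Wr
  positivity

lemma Data.one_le (h : Data w i j m n E e f) (k : ℕ) : 1 ≤ Wr w k := by
  have : (1 : ℝ) ≤ w := by exact_mod_cast (by have := h.w2; omega : 1 ≤ w)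
  exact one_le_pow₀ this

lemma Data.VW (h : Data w i j m n E e f) : Wr w j = Wr w i * Wr w (j - i) := by
  unfold Wr
  rw [← pow_add]
  congr 1
  have := h.ij
  omega

lemma Data.HR (h : Data w i j m n E e f) : 64 * (E : ℝ) ^ 2 * Wr w (j - i) ≤ Wr w i := by
  unfold Wr
  exact_mod_cast h.H

lemma Data.E2 (h : Data w i j m n E e f) : (2 : ℝ) ≤ E := by
  exact_mod_cast h.m2.trans h.mE

lemma Data.x_abs (h : Data w i j m n E e f) : |(e : ℝ) / Wr w i| = 1 / Wr w i := by
  rw [abs_div, h.he.abs, abs_of_pos (h.pos i)]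

lemma Data.y_abs (h : Data w i j m n E e f) : |(f : ℝ) / Wr w j| = 1 / Wr w j := by
  rw [abs_div, h.hf.abs, abs_of_pos (h.pos j)]

lemma Data.W_le_V (h : Data w i j m n E e f) : Wr w i ≤ Wr w j := by
  rw [h.VW]
  exact le_mul_of_one_le_right (h.pos i).le (h.one_le _)

lemma Data.mR (h : Data w i j m n E e f) : (2 : ℝ) ≤ m ∧ (m : ℝ) ≤ E :=
  ⟨by exact_mod_cast h.m2, by exact_mod_cast h.mE⟩

lemma Data.nR (h : Data w i j m n E e f) : (2 : ℝ) ≤ n ∧ (n : ℝ) ≤ E :=
  ⟨by exact_mod_cast h.n2, by exact_mod_cast h.nE⟩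

/-- `64 E² ≤ W` -/
lemma Data.EW (h : Data w i j m n E e f) : 64 * (E : ℝ) ^ 2 ≤ Wr w i :=
  le_trans (le_mul_of_one_le_right (by positivity) (h.one_le _)) h.HR

lemma Data.mx (h : Data w i j m n E e f) : (m : ℝ) * |(e : ℝ) / Wr w i| ≤ 1 / 128 := by
  rw [h.x_abs, mul_one_div, div_le_iff₀ (h.pos i)]
  have h1 := h.EW
  have h2 := h.E2
  have h3 := h.mR.2
  nlinarith

lemma Data.ny (h : Data w i j m n E e f) : (n : ℝ) * |(f : ℝ) / Wr w j| ≤ 1 / 128 := by
  rw [h.y_abs, mul_one_div, div_le_iff₀ (h.pos j)]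
  have h1 := h.EW
  have h2 := h.E2
  have h3 := h.nR.2
  have h4 := h.W_le_V
  nlinarith

lemma Data.Tm (h : Data w i j m n E e f) :
    7 / 16 * (m * (m - 1)) / Wr w i ^ 2 ≤ T m (e / Wr w i) ∧
      T m (e / Wr w i) ≤ 4 / 7 * (m * (m - 1)) / Wr w i ^ 2 := by
  have h1 := T_bounds (h.mx.trans (by norm_num)) m le_rfl
  have h2 : ((e : ℝ) / Wr w i) ^ 2 = 1 / Wr w i ^ 2 := by
    rw [← sq_abs, h.x_abs, div_pow, one_pow]
  rw [h2] at h1
  rw [div_eq_mul_one_div (7 / 16 * ((m : ℝ) * (m - 1))), div_eq_mul_one_div (4 / 7 * ((m : ℝ) * (m - 1)))]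
  exact h1

lemma Data.Tn (h : Data w i j m n E e f) :
    7 / 16 * (n * (n - 1)) / Wr w j ^ 2 ≤ T n (f / Wr w j) ∧
      T n (f / Wr w j) ≤ 4 / 7 * (n * (n - 1)) / Wr w j ^ 2 := by
  have h1 := T_bounds (h.ny.trans (by norm_num)) n le_rfl
  have h2 : ((f : ℝ) / Wr w j) ^ 2 = 1 / Wr w j ^ 2 := by
    rw [← sq_abs, h.y_abs, div_pow, one_pow]
  rw [h2] at h1
  rw [div_eq_mul_one_div (7 / 16 * ((n : ℝ) * (n - 1))), div_eq_mul_one_div (4 / 7 * ((n : ℝ) * (n - 1)))]
  exact h1

lemma Data.Tm_pos (h : Data w i j m n E e f) : 0 < T m (e / Wr w i) := by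
  refine lt_of_lt_of_le ?_ h.Tm.1
  have := h.mR.1
  have := h.pos i
  have : 0 < (m : ℝ) * (m - 1) := mul_pos (by linarith) (by linarith)
  positivity

lemma Data.Tn_pos (h : Data w i j m n E e f) : 0 < T n (f / Wr w j) := by
  refine lt_of_lt_of_le ?_ h.Tn.1
  have := h.nR.1
  have := h.pos j
  have : 0 < (n : ℝ) * (n - 1) := mul_pos (by linarith) (by linarith)
  positivity

lemma Data.VTm (h : Data w i j m n E e f) : Wr w j * T m (e / Wr w i) ≤ 1 / 112 := by
  have h1 := h.Tm.2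
  have hV := h.pos j
  have hW := h.pos i
  calc Wr w j * T m (e / Wr w i) ≤ Wr w j * (4 / 7 * (m * (m - 1)) / Wr w i ^ 2) :=
        mul_le_mul_of_nonneg_left h1 hV.le
    _ = 4 / 7 * (m * (m - 1) * Wr w (j - i)) / Wr w i := by
        rw [h.VW]
        field_simp
    _ ≤ 1 / 112 := by
        rw [div_le_iff₀ hW]
        have h2 := h.HR
        have h3 := h.mR
        have h4 := h.one_le (j - i)
        have h5 : (m : ℝ) * (m - 1) ≤ (E : ℝ) ^ 2 := by nlinarith
        have h6 := mul_le_mul_of_nonneg_right h5 (by linarith : (0 : ℝ) ≤ Wr w (j - i))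
        linarith

lemma Data.VTn (h : Data w i j m n E e f) : Wr w j * T n (f / Wr w j) ≤ 1 / 112 := by
  have h1 := h.Tn.2
  have hV := h.pos j
  calc Wr w j * T n (f / Wr w j) ≤ Wr w j * (4 / 7 * (n * (n - 1)) / Wr w j ^ 2) :=
        mul_le_mul_of_nonneg_left h1 hV.le
    _ = 4 / 7 * (n * (n - 1)) / Wr w j := by
        field_simp
    _ ≤ 1 / 112 := by
        rw [div_le_iff₀ hV]
        have h2 := h.EW
        have h3 := h.nR
        have h4 := h.W_le_V
        have h5 : (n : ℝ) * (n - 1) ≤ (E : ℝ) ^ 2 := by nlinarith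
        linarith

lemma Data.WTm (h : Data w i j m n E e f) : Wr w i * T m (e / Wr w i) ≤ 1 / 112 :=
  (mul_le_mul_of_nonneg_right h.W_le_V h.Tm_pos.le).trans h.VTm

/-- deviations -/
noncomputable def dev (m : ℕ) (x : ℝ) : ℝ := (1 + x) ^ m - 1

lemma dev_eq (m : ℕ) (x : ℝ) : dev m x = m * x + T m x := by
  unfold dev T; ring

lemma Data.Vx (h : Data w i j m n E e f) : Wr w j * (e / Wr w i) = e * Wr w (j - i) := by
  rw [h.VW]
  have := (h.pos i).ne'
  field_simp

lemma Data.Vy (h : Data w i j m n E e f) : Wr w j * (f / Wr w j) = f := by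
  have := (h.pos j).ne'
  field_simp

lemma Data.Wx (h : Data w i j m n E e f) : Wr w i * (e / Wr w i) = e := by
  have := (h.pos i).ne'
  field_simp

lemma Data.mu (h : Data w i j m n E e f) : |dev m (e / Wr w i)| ≤ 65 / 64 * (m / Wr w i) ∧
    63 / 64 * (m / Wr w i) ≤ |dev m (e / Wr w i)| := by
  have := mu_bounds h.mx
  rw [h.x_abs, mul_one_div] at this
  exact ⟨this.2, this.1⟩

lemma Data.nu (h : Data w i j m n E e f) : |dev n (f / Wr w j)| ≤ 65 / 64 * (n / Wr w j) ∧
    63 / 64 * (n / Wr w j) ≤ |dev n (f / Wr w j)| := by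
  have := mu_bounds h.ny
  rw [h.y_abs, mul_one_div] at this
  exact ⟨this.2, this.1⟩

lemma Data.mu' (h : Data w i j m n E e f) : |dev m (e / Wr w i)| ≤ 1 / 64 := by
  have h1 := h.mu.1
  have h2 := h.mx
  rw [h.x_abs, mul_one_div] at h2
  linarith

lemma Data.nu' (h : Data w i j m n E e f) : |dev n (f / Wr w j)| ≤ 1 / 64 := by
  have h1 := h.nu.1
  have h2 := h.ny
  rw [h.y_abs, mul_one_div] at h2
  linarith

lemma Data.n_lt (h : Data w i j m n E e f) (hlt : i < j) (hmn : j * n ≤ i * m) : n < m := by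
  by_contra hcon
  push Not at hcon
  have h1 : (i + 1) * m ≤ j * n := Nat.mul_le_mul hlt hcon
  have h2 := h.m2
  nlinarith

/-- the case `A ^ m ≈ B ^ n` -/
lemma Data.D1 (h : Data w i j m n E e f) (s : ℕ) (hmn : i * m = j * n)
    (heq : Wr w (i * m) * |dev m (e / Wr w i) - dev n (f / Wr w j)| = Wr w s) : False := by
  set x : ℝ := e / Wr w i with hx
  set y : ℝ := f / Wr w j with hy
  have hV := h.pos j
  have hTm := h.Tm_pos
  have hTn := h.Tn_pos
  have hVm := h.VTm
  have hVn := h.VTn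
  rw [← hx] at hTm hVm
  rw [← hy] at hTn hVn
  set D : ℤ := m * e * w ^ (j - i) - n * f with hD
  set θ : ℝ := Wr w j * T m x - Wr w j * T n y with hθ
  have hθ1 : |θ| ≤ 1 / 112 := by
    rw [abs_le]
    have := mul_pos hV hTm
    have := mul_pos hV hTn
    constructor <;> linarith
  have hVD : Wr w j * (dev m x - dev n y) = D + θ := by
    rw [dev_eq, dev_eq, hD, hθ]
    have h1 := h.Vx
    have h2 := h.Vy
    rw [← hx] at h1
    rw [← hy] at h2
    have h3 : ((m * e * w ^ (j - i) - n * f : ℤ) : ℝ) = m * (e * Wr w (j - i)) - n * f := by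
      unfold Wr
      push_cast
      ring
    rw [h3]
    linear_combination (m : ℝ) * h1 - (n : ℝ) * h2
  have hkey : Wr w (i * m) * |(D : ℝ) + θ| = Wr w (s + j) := by
    rw [← hVD, abs_mul, abs_of_pos hV]
    calc Wr w (i * m) * (Wr w j * |dev m x - dev n y|) =
          (Wr w (i * m) * |dev m x - dev n y|) * Wr w j := by ring
      _ = Wr w s * Wr w j := by rw [heq]
      _ = _ := by unfold Wr; rw [← pow_add]
  -- the size of `D`
  have hD2 : (2 : ℝ) ≤ |(D : ℝ)| := by
    have : 2 ≤ |D| := by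
      rcases Nat.lt_or_ge i j with hij | hij
      · have hn := h.n_lt hij hmn.ge
        have hd : 2 ≤ w ^ (j - i) := h.w2.trans (Nat.le_self_pow (by omega) w)
        have h1 : (2 * m : ℤ) ≤ m * (w : ℤ) ^ (j - i) := by
          have : 2 * m ≤ m * w ^ (j - i) := by nlinarith
          exact_mod_cast this
        have hn' : (n : ℤ) < m := by exact_mod_cast hn
        have hn0 : (0 : ℤ) ≤ n := by positivity
        have hm2 : (2 : ℤ) ≤ m := by exact_mod_cast h.m2
        rw [hD, le_abs]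
        rcases h.he with he | he <;> rcases h.hf with hf | hf <;> rw [he, hf]
        · left; nlinarith
        · left; nlinarith
        · right; nlinarith
        · right; nlinarith
      · have hij' : i = j := le_antisymm h.ij hij
        have hmn' : m = n := by
          rw [← hij'] at hmn
          exact Nat.eq_of_mul_eq_mul_left h.i1 hmn
        have hef := h.hef hij'
        have hm2 : (2 : ℤ) ≤ m := by exact_mod_cast h.m2
        rw [hD, ← hij', Nat.sub_self, pow_zero, ← hmn', hef, le_abs]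
        rcases h.hf with hf | hf <;> rw [hf]
        · right; linarith
        · left; linarith
    have h3 : ((2 : ℤ) : ℝ) ≤ ((|D| : ℤ) : ℝ) := by exact_mod_cast this
    push_cast at h3
    exact h3
  have habs : |(D : ℝ)| - 1 / 112 ≤ |(D : ℝ) + θ| := by
    have := abs_sub_abs_le_abs_sub (D : ℝ) (-θ)
    rw [sub_neg_eq_add, abs_neg] at this
    linarith
  have hp := h.pos (i * m)
  rcases Nat.lt_or_ge (s + j) (i * m) with hlt | hge
  · have h1 : Wr w (s + j) * 2 ≤ Wr w (i * m) := by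
      have h2 : Wr w (s + j) * Wr w 1 ≤ Wr w (i * m) := by
        unfold Wr
        rw [← pow_add]
        exact pow_le_pow_right₀ (by exact_mod_cast (by have := h.w2; omega : 1 ≤ w)) (by omega)
      have h3 : (2 : ℝ) ≤ Wr w 1 := by
        unfold Wr
        rw [pow_one]
        exact_mod_cast h.w2
      have h4 := h.pos (s + j)
      nlinarith
    rw [← hkey] at h1
    nlinarith
  · obtain ⟨t, ht⟩ := Nat.exists_eq_add_of_le hge
    have h1 : |(D : ℝ) + θ| = ((w ^ t : ℕ) : ℝ) := by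
      rw [ht] at hkey
      have h2 : Wr w (i * m + t) = Wr w (i * m) * (w : ℝ) ^ t := by unfold Wr; rw [pow_add]
      rw [h2] at hkey
      have := mul_left_cancel₀ hp.ne' hkey
      rw [this]
      push_cast
      rfl
    have hθ0 : θ = 0 := by
      rcases abs_eq (by positivity : (0 : ℝ) ≤ ((w ^ t : ℕ) : ℝ)) |>.1 h1 with h2 | h2
      · exact (int_zero (R := ((w ^ t : ℕ) : ℤ)) (by rw [h2]; push_cast; rfl)
          (lt_of_le_of_lt hθ1 (by norm_num))).1
      · exact (int_zero (R := -((w ^ t : ℕ) : ℤ)) (by rw [h2]; push_cast; rfl)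
          (lt_of_le_of_lt hθ1 (by norm_num))).1
    have hTT : T m x = T n y := by
      have : Wr w j * (T m x - T n y) = 0 := by rw [mul_sub]; exact hθ0
      rcases mul_eq_zero.1 this with h2 | h2
      · exact absurd h2 hV.ne'
      · linarith
    rcases Nat.lt_or_ge i j with hij | hij
    · have hn := h.n_lt hij hmn.ge
      have h1 := h.Tm.1
      have h2 := h.Tn.2
      rw [← hx] at h1
      rw [← hy] at h2
      have hW := h.pos i
      have hd : (2 : ℝ) ≤ Wr w (j - i) := by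
        unfold Wr
        exact_mod_cast h.w2.trans (Nat.le_self_pow (by omega) w)
      have h3 : 4 / 7 * ((n : ℝ) * (n - 1)) / Wr w j ^ 2 < 7 / 16 * (m * (m - 1)) / Wr w i ^ 2 := by
        rw [h.VW, mul_pow, div_lt_div_iff₀ (by positivity) (by positivity)]
        have hn' : (n : ℝ) ≤ m := by exact_mod_cast hn.le
        have hn2 := h.nR.1
        have hm2 := h.mR.1
        have h4 : (n : ℝ) * (n - 1) ≤ m * (m - 1) := by nlinarith
        have h5 : 0 < (m : ℝ) * (m - 1) := mul_pos (by linarith) (by linarith)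
        have h6 : (4 : ℝ) ≤ Wr w (j - i) ^ 2 := by nlinarith
        have hW2 : 0 < Wr w i ^ 2 := by positivity
        calc 4 / 7 * ((n : ℝ) * (n - 1)) * Wr w i ^ 2 ≤ 4 / 7 * ((m : ℝ) * (m - 1)) * Wr w i ^ 2 := by
              gcongr
          _ < 7 / 16 * ((m : ℝ) * (m - 1)) * (Wr w i ^ 2 * 4) := by nlinarith [mul_pos h5 hW2]
          _ ≤ 7 / 16 * ((m : ℝ) * (m - 1)) * (Wr w i ^ 2 * Wr w (j - i) ^ 2) := by gcongr
      rw [hTT] at h1
      linarith
    · have hij' : i = j := le_antisymm h.ij hij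
      have hmn' : m = n := by
        rw [← hij'] at hmn
        exact Nat.eq_of_mul_eq_mul_left h.i1 hmn
      have hef := h.hef hij'
      have hxy : y = -x := by
        rw [hy, hx, ← hij', hef]
        push_cast
        ring
      have hm3 : 3 ≤ m := by
        have := h.m2
        have := h.nt
        omega
      rw [← hmn', hxy] at hTT
      have hmx := h.mx
      rw [← hx] at hmx
      have hx0 : x ≠ 0 := by
        intro h0
        have := h.x_abs
        rw [← hx, h0, abs_zero] at this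
        have := h.pos i
        have : 0 < 1 / Wr w i := by positivity
        linarith
      rcases lt_or_gt_of_ne hx0 with h0 | h0
      · have := T_neg_lt (x := -x) (by linarith) (M := m) (by rw [abs_neg]; linarith) m hm3 le_rfl
        rw [neg_neg] at this
        linarith
      · have := T_neg_lt (x := x) h0 (M := m) (by linarith) m hm3 le_rfl
        linarith

end

end Pool.Agent.L5helper35.FC
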