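import Mathlib
import Pool.Agent.L5helper35.FC.CaseA

/-!
# Two bases `w ^ i ± 1`, `w ^ j ± 1` and a power of `w`: the other size patterns
-/

set_option autoImplicit false

namespace Pool.Agent.L5helper35.FC

section

variable {w i j m n E : ℕ} {e f : ℤ}

lemma Data.Wr_add (_ : Data w i j m n E e f) (a b : ℕ) : Wr w (a + b) = Wr w a * Wr w b := by
  unfold Wr; rw [pow_add]

lemma Data.Wr_lt (h : Data w i j m n E e f) {a b : ℕ} (hab : a < b) : Wr w a * 2 ≤ Wr w b := by
  have h2 : Wr w a * Wr w 1 ≤ Wr w b := by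
    rw [← h.Wr_add]
    unfold Wr
    exact pow_le_pow_right₀ (by exact_mod_cast (by have := h.w2; omega : 1 ≤ w)) (by omega)
  have h3 : (2 : ℝ) ≤ Wr w 1 := by
    unfold Wr
    rw [pow_one]
    exact_mod_cast h.w2
  have h4 := h.pos a
  nlinarith

lemma two_pow_gt (t : ℕ) (h : 2 ≤ t) : t + 1 < 2 ^ t := by
  induction t, h using Nat.le_induction with
  | base => norm_num
  | succ k hk ih =>
    rw [pow_succ]
    omega

/-- the case `A ^ m ≈ w ^ s`, `B ^ n` small -/
lemma Data.D2 (h : Data w i j m n E e f)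
    (heq : Wr w (i * m) * |dev m (e / Wr w i)| = Wr w (j * n) * (1 + dev n (f / Wr w j))) :
    False := by
  set x : ℝ := e / Wr w i with hx
  set y : ℝ := f / Wr w j with hy
  have hW := h.pos i
  have hV := h.pos j
  have hTm := h.Tm_pos
  have hTn := h.Tn_pos
  have hWm := h.WTm
  have hVn := h.VTn
  have hmu := h.mu
  have hnu := h.nu
  have hnu' := h.nu'
  rw [← hx] at hTm hWm hmu
  rw [← hy] at hTn hVn hnu hnu'
  have hWx := h.Wx
  rw [← hx] at hWx
  have hm2 := h.mR.1
  have hmE := h.mR.2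
  have hnE := h.nR.2
  have hEW := h.EW
  have hWV := h.W_le_V
  obtain ⟨hν1, hν2⟩ := abs_le.1 hnu'
  have hkey : Wr w (i * m) * (Wr w i * |dev m x|) = Wr w (j * n + i) * (1 + dev n y) := by
    rw [h.Wr_add]
    calc Wr w (i * m) * (Wr w i * |dev m x|) = (Wr w (i * m) * |dev m x|) * Wr w i := by ring
      _ = _ := by rw [heq]; ring
  have habs : Wr w i * |dev m x| = m + e * (Wr w i * T m x) := by
    have h1 : Wr w i * |dev m x| = |Wr w i * dev m x| := by rw [abs_mul, abs_of_pos hW]
    have h2 : Wr w i * dev m x = e * (m + e * (Wr w i * T m x)) := by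
      rw [dev_eq]
      linear_combination (m : ℝ) * hWx - Wr w i * T m x * h.he.sq
    rw [h1, h2, abs_mul, h.he.abs, one_mul, abs_of_nonneg]
    have h3 : 0 ≤ Wr w i * T m x := by positivity
    rcases h.he with he | he <;> rw [he] <;> push_cast <;> linarith
  have hWT0 : 0 ≤ Wr w i * T m x := by positivity
  have hlo : (m : ℝ) - 1 / 112 ≤ m + e * (Wr w i * T m x) ∧
      m + e * (Wr w i * T m x) ≤ (m : ℝ) + 1 / 112 := by
    rcases h.he with he | he <;> rw [he] <;> push_cast <;> constructor <;> linarith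
  rw [habs] at hkey
  have hp := h.pos (i * m)
  rcases Nat.lt_or_ge (j * n + i) (i * m) with hlt | hge
  · have h1 := h.Wr_lt hlt
    have h2 : Wr w (j * n + i) * (1 + dev n y) ≤ Wr w (i * m) / 2 * (65 / 64) := by
      have := h.pos (j * n + i)
      nlinarith
    rw [← hkey] at h2
    have h3 : Wr w (i * m) * (3 / 2) ≤ Wr w (i * m) * (m + e * (Wr w i * T m x)) :=
      mul_le_mul_of_nonneg_left (by linarith [hlo.1]) hp.le
    nlinarith
  obtain ⟨t, ht⟩ := Nat.exists_eq_add_of_le hge
  have hR : (m : ℝ) + e * (Wr w i * T m x) = ((w ^ t : ℕ) : ℝ) * (1 + dev n y) := by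
    rw [ht, h.Wr_add, mul_assoc] at hkey
    have := mul_left_cancel₀ hp.ne' hkey
    rw [this]
    unfold Wr
    push_cast
    rfl
  set R : ℝ := ((w ^ t : ℕ) : ℝ) with hRdef
  have hR0 : 0 ≤ R := by positivity
  have hR2 : R ≤ 2 * m := by nlinarith [hlo.2]
  have hnV : (n : ℝ) / Wr w j ≤ 1 / (64 * E) := by
    have hE2 := h.E2
    rw [div_le_div_iff₀ hV (by positivity)]
    nlinarith
  have hRν : |R * dev n y| ≤ 1 / 16 := by
    rw [abs_mul, abs_of_nonneg hR0]
    have hE2 := h.E2
    have h1 : R * |dev n y| ≤ (2 * E) * (65 / 64 * (1 / (64 * E))) := by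
      apply mul_le_mul (by linarith) (hnu.1.trans (by linarith)) (abs_nonneg _) (by linarith)
    refine h1.trans ?_
    have : (2 * (E : ℝ)) * (65 / 64 * (1 / (64 * E))) = 130 / 4096 := by field_simp; norm_num
    rw [this]
    norm_num
  have hRm : m = w ^ t := by
    have h1 : ((m : ℤ) : ℝ) + (e * (Wr w i * T m x) - R * dev n y) = ((w ^ t : ℕ) : ℤ) := by
      have h2 : (((w ^ t : ℕ) : ℤ) : ℝ) = R := by rw [hRdef]; push_cast; rfl
      rw [h2]
      push_cast
      linarith
    have h3 : |e * (Wr w i * T m x) - R * dev n y| < 1 := by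
      refine (abs_sub _ _).trans_lt ?_
      rw [abs_mul, h.he.abs, one_mul, abs_of_nonneg hWT0]
      linarith
    have h4 := (int_zero h1 h3).2
    exact_mod_cast h4
  have ht1 : 1 ≤ t := by
    by_contra hcon
    have : t = 0 := by omega
    rw [this, pow_zero] at hRm
    have := h.m2
    omega
  have hmeven : Even m := by
    rw [hRm]
    exact h.wev.pow_of_ne_zero (by omega)
  -- second order
  have hRm' : R = m := by rw [hRdef, ← hRm]
  have hsec : e * (Wr w i * T m x) = m * (n * y + T n y) := by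
    rw [hRm', dev_eq] at hR
    linarith
  obtain ⟨U, hU⟩ : ∃ U, U = T m x - (m : ℝ) * (m - 1) / 2 * x ^ 2 := ⟨_, rfl⟩
  have hUb : |U| ≤ (m : ℝ) ^ 3 / Wr w i ^ 3 := by
    have h1 := T_third (M := m) (x := x) (by have := h.mx; rw [← hx] at this; linarith) m le_rfl
    rw [← hU] at h1
    have h2 : |x| ^ 3 = 1 / Wr w i ^ 3 := by
      rw [hx, h.x_abs, div_pow, one_pow]
    rw [h2, mul_one_div] at h1
    exact h1
  have hx2 : x ^ 2 = 1 / Wr w i ^ 2 := by
    rw [← sq_abs, hx, h.x_abs, div_pow, one_pow]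
  have hint : (((e * (m - 1) * w ^ (j - i) - 2 * n * f : ℤ)) : ℝ) +
      (2 * e * (Wr w j * Wr w i * (U / m)) - 2 * (Wr w j * T n y)) = ((0 : ℤ) : ℝ) := by
    have hVy := h.Vy
    rw [← hy] at hVy
    have h1 : T m x = (m : ℝ) * (m - 1) / 2 * (1 / Wr w i ^ 2) + U := by rw [hU, hx2]; ring
    have hm0 : (m : ℝ) ≠ 0 := by linarith
    have h2 : (e : ℝ) * (m - 1) * Wr w (j - i) + 2 * e * (Wr w j * Wr w i * (U / m)) =
        2 * Wr w j / m * (e * (Wr w i * T m x)) := by
      rw [h1, h.VW]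
      field_simp
    have h3 : 2 * Wr w j / m * (m * (n * y + T n y)) = 2 * n * f + 2 * (Wr w j * T n y) := by
      rw [← hVy]
      field_simp
    rw [hsec, h3] at h2
    have h4 : (((e * (m - 1) * w ^ (j - i) - 2 * n * f : ℤ)) : ℝ) =
        (e : ℝ) * (m - 1) * Wr w (j - i) - 2 * n * f := by
      unfold Wr
      push_cast
      ring
    rw [h4]
    push_cast
    linarith
  have hsmall : |2 * (e : ℝ) * (Wr w j * Wr w i * (U / m)) - 2 * (Wr w j * T n y)| < 1 := by
    refine (abs_sub _ _).trans_lt ?_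
    have h1 : |2 * (e : ℝ) * (Wr w j * Wr w i * (U / m))| ≤ 1 / 32 := by
      rw [abs_mul, abs_mul, h.he.abs, abs_mul, abs_mul, abs_div, abs_of_pos hV, abs_of_pos hW,
        abs_of_pos (by linarith : (0 : ℝ) < m), mul_one, abs_two]
      calc 2 * (Wr w j * Wr w i * (|U| / m)) ≤ 2 * (Wr w j * Wr w i * ((m : ℝ) ^ 3 / Wr w i ^ 3 / m)) := by
            gcongr
        _ = 2 * ((m : ℝ) ^ 2 * Wr w (j - i)) / Wr w i := by
            rw [h.VW]
            have hm0 : (m : ℝ) ≠ 0 := by linarith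
            field_simp
        _ ≤ 1 / 32 := by
            rw [div_le_iff₀ hW]
            have h2 := h.HR
            have h4 := h.one_le (j - i)
            have h5 : (m : ℝ) ^ 2 ≤ (E : ℝ) ^ 2 := by gcongr
            have h6 := mul_le_mul_of_nonneg_right h5 (by linarith : (0 : ℝ) ≤ Wr w (j - i))
            linarith
    have h2 : |2 * (Wr w j * T n y)| ≤ 1 / 56 := by
      rw [abs_of_nonneg (by positivity)]
      linarith
    linarith
  have hfin := (int_zero hint hsmall).2
  -- arithmetic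
  have hsg : (m - 1) * w ^ (j - i) = 2 * n := by
    have hm1 : (1 : ℤ) ≤ m := by exact_mod_cast (by have := h.m2; omega : 1 ≤ m)
    have hmc : (((m - 1 : ℕ)) : ℤ) = m - 1 := by
      rw [Nat.cast_sub (by have := h.m2; omega)]; push_cast; rfl
    have hP : (0 : ℤ) < (m - 1) * (w : ℤ) ^ (j - i) := by
      have h1 : (2 : ℤ) ≤ m := by exact_mod_cast h.m2
      have h2 : (0 : ℤ) < w := by exact_mod_cast (by have := h.w2; omega : 0 < w)
      have h3 : (0 : ℤ) < (w : ℤ) ^ (j - i) := by positivity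
      exact mul_pos (by linarith) h3
    have hn0 : (0 : ℤ) < n := by exact_mod_cast (by have := h.n2; omega : 0 < n)
    have : (((m - 1) * w ^ (j - i) : ℕ) : ℤ) = ((2 * n : ℕ) : ℤ) := by
      push_cast [hmc]
      rcases h.he with he | he <;> rcases h.hf with hf | hf <;> rw [he, hf] at hfin
      · linarith
      · nlinarith
      · nlinarith
      · linarith
    exact_mod_cast this
  rcases Nat.lt_or_ge i j with hij | hij
  · -- `δ ≥ 1`
    obtain ⟨δ, hδ⟩ := Nat.exists_eq_add_of_lt hij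
    have hji : j - i = δ + 1 := by omega
    rw [hji] at hsg
    obtain ⟨m', hm'⟩ : ∃ m', m = m' + 1 := ⟨m - 1, by have := h.m2; omega⟩
    have hm'1 : 1 ≤ m' := by have := h.m2; omega
    rw [hm', Nat.add_sub_cancel] at hsg
    rw [hm'] at ht
    -- `m' (j d - 2 i) = 2 t`
    have h1 : m' * (j * w ^ (δ + 1)) = 2 * (i * m') + 2 * t := by
      have h2 : j * (m' * w ^ (δ + 1)) = j * (2 * n) := by rw [hsg]
      have h3 : j * n = i * m' + t := by
        have h4 : i * (m' + 1) = i * m' + i := by ring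
        rw [h4] at ht
        omega
      calc m' * (j * w ^ (δ + 1)) = j * (m' * w ^ (δ + 1)) := by ring
        _ = 2 * (j * n) := by rw [h2]; ring
        _ = 2 * (i * m') + 2 * t := by rw [h3]; ring
    have hd2 : 2 ≤ w ^ (δ + 1) := h.w2.trans (Nat.le_self_pow (by omega) w)
    have h4 : m' * (2 * (i + 1)) ≤ m' * (j * w ^ (δ + 1)) := by
      apply Nat.mul_le_mul_left
      calc 2 * (i + 1) ≤ j * 2 := by omega
        _ ≤ _ := Nat.mul_le_mul_left _ hd2
    have h5 : m' ≤ t := by
      have : m' * (2 * (i + 1)) = 2 * (i * m') + 2 * m' := by ring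
      omega
    have h6 : t + 1 ≤ w ^ t := by
      calc t + 1 ≤ 2 ^ t := Nat.lt_two_pow_self
        _ ≤ w ^ t := Nat.pow_le_pow_left h.w2 t
    have h7 : m' = t := by omega
    have h8 : w ^ t = t + 1 := by omega
    have ht' : t = 1 := by
      by_contra hcon
      have h9 : 2 ≤ t := by omega
      have h10 : t + 1 < 2 ^ t := two_pow_gt t h9
      have : 2 ^ t ≤ w ^ t := Nat.pow_le_pow_left h.w2 t
      omega
    subst ht'
    rw [pow_one] at h8
    have hw2 : w = 2 := by omega
    subst hw2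
    rw [h7] at h1 hsg
    -- j 2^(δ+1) = 2 i + 2, j = i + δ + 1
    have h9 : δ = 0 := by
      by_contra hcon
      have h10 : 4 ≤ 2 ^ (δ + 1) := by
        calc 4 = 2 ^ 2 := by norm_num
          _ ≤ 2 ^ (δ + 1) := Nat.pow_le_pow_right (by norm_num) (by omega)
      have h11 : j * 4 ≤ j * 2 ^ (δ + 1) := Nat.mul_le_mul_left _ h10
      omega
    rw [h9] at hsg
    have := h.n2
    omega
  · have hij' : i = j := le_antisymm h.ij hij
    rw [← hij', Nat.sub_self, pow_zero, mul_one] at hsg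
    obtain ⟨k, hk⟩ := hmeven
    have := h.m2
    omega

/-- the case `B ^ n ≈ w ^ s`, `A ^ m` small -/
lemma Data.D3 (h : Data w i j m n E e f)
    (heq : Wr w (j * n) * |dev n (f / Wr w j)| = Wr w (i * m) * (1 + dev m (e / Wr w i))) :
    False := by
  set x : ℝ := e / Wr w i with hx
  set y : ℝ := f / Wr w j with hy
  have hW := h.pos i
  have hV := h.pos j
  have hTm := h.Tm_pos
  have hTn := h.Tn_pos
  have hVn := h.VTn
  have hmu := h.mu
  have hmu' := h.mu'
  rw [← hx] at hTm hmu hmu'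
  rw [← hy] at hTn hVn
  have hVy := h.Vy
  rw [← hy] at hVy
  have hn2 := h.nR.1
  have hmE := h.mR.2
  have hnE := h.nR.2
  have hEW := h.EW
  have hWV := h.W_le_V
  obtain ⟨hν1, hν2⟩ := abs_le.1 hmu'
  have hkey : Wr w (j * n) * (Wr w j * |dev n y|) = Wr w (i * m + j) * (1 + dev m x) := by
    rw [h.Wr_add]
    calc Wr w (j * n) * (Wr w j * |dev n y|) = (Wr w (j * n) * |dev n y|) * Wr w j := by ring
      _ = _ := by rw [heq]; ring
  have habs : Wr w j * |dev n y| = n + f * (Wr w j * T n y) := by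
    have h1 : Wr w j * |dev n y| = |Wr w j * dev n y| := by rw [abs_mul, abs_of_pos hV]
    have h2 : Wr w j * dev n y = f * (n + f * (Wr w j * T n y)) := by
      rw [dev_eq]
      linear_combination (n : ℝ) * hVy - Wr w j * T n y * h.hf.sq
    rw [h1, h2, abs_mul, h.hf.abs, one_mul, abs_of_nonneg]
    have h3 : 0 ≤ Wr w j * T n y := by positivity
    rcases h.hf with he | he <;> rw [he] <;> push_cast <;> linarith
  have hWT0 : 0 ≤ Wr w j * T n y := by positivity
  have hlo : (n : ℝ) - 1 / 112 ≤ n + f * (Wr w j * T n y) ∧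
      n + f * (Wr w j * T n y) ≤ (n : ℝ) + 1 / 112 := by
    rcases h.hf with he | he <;> rw [he] <;> push_cast <;> constructor <;> linarith
  rw [habs] at hkey
  have hp := h.pos (j * n)
  rcases Nat.lt_or_ge (i * m + j) (j * n) with hlt | hge
  · have h1 := h.Wr_lt hlt
    have h2 : Wr w (i * m + j) * (1 + dev m x) ≤ Wr w (j * n) / 2 * (65 / 64) := by
      have := h.pos (i * m + j)
      nlinarith
    rw [← hkey] at h2
    have h3 : Wr w (j * n) * (3 / 2) ≤ Wr w (j * n) * (n + f * (Wr w j * T n y)) :=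
      mul_le_mul_of_nonneg_left (by linarith [hlo.1]) hp.le
    nlinarith
  obtain ⟨t, ht⟩ := Nat.exists_eq_add_of_le hge
  have hR : (n : ℝ) + f * (Wr w j * T n y) = ((w ^ t : ℕ) : ℝ) * (1 + dev m x) := by
    rw [ht, h.Wr_add, mul_assoc] at hkey
    have := mul_left_cancel₀ hp.ne' hkey
    rw [this]
    unfold Wr
    push_cast
    rfl
  set R : ℝ := ((w ^ t : ℕ) : ℝ) with hRdef
  have hR0 : 0 ≤ R := by positivity
  have hR2 : R ≤ 2 * n := by nlinarith [hlo.2]
  have hnV : (m : ℝ) / Wr w i ≤ 1 / (64 * E) := by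
    have hE2 := h.E2
    rw [div_le_div_iff₀ hW (by positivity)]
    nlinarith
  have hRν : |R * dev m x| ≤ 1 / 16 := by
    rw [abs_mul, abs_of_nonneg hR0]
    have hE2 := h.E2
    have h1 : R * |dev m x| ≤ (2 * E) * (65 / 64 * (1 / (64 * E))) := by
      apply mul_le_mul (by linarith) (hmu.1.trans (by linarith)) (abs_nonneg _) (by linarith)
    refine h1.trans ?_
    have : (2 * (E : ℝ)) * (65 / 64 * (1 / (64 * E))) = 130 / 4096 := by field_simp; norm_num
    rw [this]
    norm_num
  have hRm : n = w ^ t := by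
    have h1 : ((n : ℤ) : ℝ) + (f * (Wr w j * T n y) - R * dev m x) = ((w ^ t : ℕ) : ℤ) := by
      have h2 : (((w ^ t : ℕ) : ℤ) : ℝ) = R := by rw [hRdef]; push_cast; rfl
      rw [h2]
      push_cast
      linarith
    have h3 : |f * (Wr w j * T n y) - R * dev m x| < 1 := by
      refine (abs_sub _ _).trans_lt ?_
      rw [abs_mul, h.hf.abs, one_mul, abs_of_nonneg hWT0]
      linarith
    have h4 := (int_zero h1 h3).2
    exact_mod_cast h4
  have hRm' : R = n := by rw [hRdef, ← hRm]
  have hsec : f * (Wr w j * T n y) = n * dev m x := by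
    rw [hRm'] at hR
    linarith
  have h1 : n * |dev m x| ≤ 4 / 7 * (n * (n - 1)) / Wr w j := by
    have h2 : n * |dev m x| = Wr w j * T n y := by
      have : |(n : ℝ) * dev m x| = |f * (Wr w j * T n y)| := by rw [hsec]
      rw [abs_mul, abs_of_nonneg (by linarith : (0 : ℝ) ≤ n), abs_mul, h.hf.abs, one_mul,
        abs_of_nonneg hWT0] at this
      exact this
    rw [h2]
    have h3 := h.Tn.2
    rw [← hy] at h3
    calc Wr w j * T n y ≤ Wr w j * (4 / 7 * (n * (n - 1)) / Wr w j ^ 2) :=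
          mul_le_mul_of_nonneg_left h3 hV.le
      _ = _ := by field_simp
  have h2 : 63 / 64 * ((m : ℝ) / Wr w i) ≤ 4 / 7 * (n - 1) / Wr w j := by
    have h3 : (n : ℝ) * (63 / 64 * ((m : ℝ) / Wr w i)) ≤ n * (4 / 7 * (n - 1) / Wr w j) := by
      calc (n : ℝ) * (63 / 64 * ((m : ℝ) / Wr w i)) ≤ n * |dev m x| :=
            mul_le_mul_of_nonneg_left hmu.2 (by linarith)
        _ ≤ _ := h1
        _ = _ := by ring
    exact le_of_mul_le_mul_left h3 (by linarith)
  have h3 : 63 / 64 * (m : ℝ) ≤ 4 / 7 * (n - 1) := by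
    have h4 : 4 / 7 * ((n : ℝ) - 1) / Wr w j ≤ 4 / 7 * (n - 1) / Wr w i := by
      apply div_le_div_of_nonneg_left (by linarith) hW hWV
    have h5 : 63 / 64 * (m : ℝ) / Wr w i ≤ 4 / 7 * (n - 1) / Wr w i := by
      calc 63 / 64 * (m : ℝ) / Wr w i = 63 / 64 * ((m : ℝ) / Wr w i) := by ring
        _ ≤ _ := h2.trans h4
    exact (div_le_div_iff_of_pos_right hW).1 h5
  -- but `m ≥ n - 1`
  have h4 : n ≤ m + 1 := by
    by_contra hcon
    have h5 : m + 2 ≤ n := by omega
    obtain ⟨n', hn'⟩ : ∃ n', n = n' + 1 := ⟨n - 1, by omega⟩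
    rw [hn'] at ht h5
    have h6 : i * m = j * n' + t := by
      have : j * (n' + 1) = j * n' + j := by ring
      omega
    have h7 : i * m < j * n' := by
      calc i * m < i * n' := Nat.mul_lt_mul_of_pos_left (by omega) h.i1
        _ ≤ j * n' := Nat.mul_le_mul_right _ h.ij
    omega
  have h5 : (n : ℝ) ≤ m + 1 := by exact_mod_cast h4
  linarith

lemma Data.C1 (h : Data w i j m n E e f) (hexp : i * m = j * n + 1)
    (heq : 2 * dev m (e / Wr w i) = dev n (f / Wr w j)) : False := by
  have hmu := h.mu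
  have hnu := h.nu
  have hW := h.pos i
  have hV := h.pos j
  have hWV := h.W_le_V
  have hnm : n ≤ m := by
    by_contra hcon
    push Not at hcon
    have : i * m ≤ j * n := Nat.mul_le_mul h.ij hcon.le
    omega
  have hnm' : (n : ℝ) ≤ m := by exact_mod_cast hnm
  rw [← heq, abs_mul, abs_two] at hnu
  have h1 : (n : ℝ) / Wr w j ≤ m / Wr w i := div_le_div₀ (by linarith [h.mR.1]) hnm' hW hWV
  have h2 : 0 < (m : ℝ) / Wr w i := div_pos (by linarith [h.mR.1]) hW
  linarith [hmu.2, hnu.1]

lemma Data.C2 (h : Data w i j m n E e f) (hexp : j * n = i * m + 1)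
    (heq : 2 * dev n (f / Wr w j) = dev m (e / Wr w i)) : False := by
  set x : ℝ := e / Wr w i with hx
  set y : ℝ := f / Wr w j with hy
  have hV := h.pos j
  have hTm := h.Tm_pos
  have hTn := h.Tn_pos
  have hVm := h.VTm
  have hVn := h.VTn
  rw [← hx] at hTm hVm
  rw [← hy] at hTn hVn
  have h1 := h.Vx
  have h2 := h.Vy
  rw [← hx] at h1
  rw [← hy] at h2
  have hint : (((2 * n * f - m * e * w ^ (j - i) : ℤ)) : ℝ) +
      (2 * (Wr w j * T n y) - Wr w j * T m x) = ((0 : ℤ) : ℝ) := by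
    rw [dev_eq, dev_eq] at heq
    have h3 : ((2 * n * f - m * e * w ^ (j - i) : ℤ) : ℝ) = 2 * n * f - m * (e * Wr w (j - i)) := by
      unfold Wr
      push_cast
      ring
    rw [h3]
    push_cast
    linear_combination Wr w j * heq + (m : ℝ) * h1 - 2 * (n : ℝ) * h2
  have hsmall : |2 * (Wr w j * T n y) - Wr w j * T m x| < 1 := by
    have := mul_pos hV hTm
    have := mul_pos hV hTn
    rw [abs_lt]
    constructor <;> linarith
  have hfin := (int_zero hint hsmall).2
  have hsg : m * w ^ (j - i) = 2 * n := by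
    have hP : (0 : ℤ) < m * (w : ℤ) ^ (j - i) := by
      have h1 : (0 : ℤ) < m := by exact_mod_cast (by have := h.m2; omega : 0 < m)
      have h2 : (0 : ℤ) < w := by exact_mod_cast (by have := h.w2; omega : 0 < w)
      positivity
    have hn0 : (0 : ℤ) < n := by exact_mod_cast (by have := h.n2; omega : 0 < n)
    have : ((m * w ^ (j - i) : ℕ) : ℤ) = ((2 * n : ℕ) : ℤ) := by
      push_cast
      rcases h.he with he | he <;> rcases h.hf with hf | hf <;> rw [he, hf] at hfin
      · linarith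
      · nlinarith
      · nlinarith
      · linarith
    exact_mod_cast this
  have h3 : m * (j * w ^ (j - i)) = 2 * (i * m) + 2 := by
    calc m * (j * w ^ (j - i)) = j * (m * w ^ (j - i)) := by ring
      _ = 2 * (j * n) := by rw [hsg]; ring
      _ = _ := by rw [hexp]; ring
  have hm2 := h.m2
  rcases Nat.lt_or_ge i j with hij | hij
  · have hd2 : 2 ≤ w ^ (j - i) := h.w2.trans (Nat.le_self_pow (by omega) w)
    have h4 : m * (2 * (i + 1)) ≤ m * (j * w ^ (j - i)) := by
      apply Nat.mul_le_mul_left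
      calc 2 * (i + 1) ≤ j * 2 := by omega
        _ ≤ _ := Nat.mul_le_mul_left _ hd2
    have : m * (2 * (i + 1)) = 2 * (i * m) + 2 * m := by ring
    omega
  · have hij' : i = j := le_antisymm h.ij hij
    rw [← hij', Nat.sub_self, pow_zero, mul_one] at h3
    have : m * i = i * m := mul_comm _ _
    omega

lemma Data.C3 (h : Data w i j m n E e f)
    (heq : dev m (e / Wr w i) + dev n (f / Wr w j) = 0) : False := by
  set x : ℝ := e / Wr w i with hx
  set y : ℝ := f / Wr w j with hy
  have hV := h.pos j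
  have hTm := h.Tm_pos
  have hTn := h.Tn_pos
  have hVm := h.VTm
  have hVn := h.VTn
  rw [← hx] at hTm hVm
  rw [← hy] at hTn hVn
  have h1 := h.Vx
  have h2 := h.Vy
  rw [← hx] at h1
  rw [← hy] at h2
  have hint : (((n * f + m * e * w ^ (j - i) : ℤ)) : ℝ) +
      (Wr w j * T n y + Wr w j * T m x) = ((0 : ℤ) : ℝ) := by
    rw [dev_eq, dev_eq] at heq
    have h3 : ((n * f + m * e * w ^ (j - i) : ℤ) : ℝ) = n * f + m * (e * Wr w (j - i)) := by
      unfold Wr
      push_cast
      ring
    rw [h3]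
    push_cast
    linear_combination Wr w j * heq - (m : ℝ) * h1 - (n : ℝ) * h2
  have hsmall : |Wr w j * T n y + Wr w j * T m x| < 1 := by
    have := mul_pos hV hTm
    have := mul_pos hV hTn
    rw [abs_lt]
    constructor <;> linarith
  have hfin := (int_zero hint hsmall).1
  have := mul_pos hV hTm
  have := mul_pos hV hTn
  linarith

end

end Pool.Agent.L5helper35.FC
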