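import Mathlib
import Pool.Agent.L5helper35.FC.CaseA2

/-!
# Two bases `w ^ i ± 1`, `w ^ j ± 1` and a power of `w`: the size patterns, and their exclusion
-/

set_option autoImplicit false

namespace Pool.Agent.L5helper35.FC

lemma wr_pos {w : ℕ} (hw : 2 ≤ w) (k : ℕ) : 0 < Wr w k := by
  unfold Wr
  positivity

lemma wr_lt {w : ℕ} (hw : 2 ≤ w) {a b : ℕ} (hab : a < b) : Wr w a * 2 ≤ Wr w b := by
  have h2 : Wr w a * Wr w 1 ≤ Wr w b := by
    unfold Wr
    rw [← pow_add]
    exact pow_le_pow_right₀ (by exact_mod_cast (by omega : 1 ≤ w)) (by omega)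
  have h3 : (2 : ℝ) ≤ Wr w 1 := by
    unfold Wr
    rw [pow_one]
    exact_mod_cast hw
  have h4 := wr_pos hw a
  nlinarith

lemma wr_le {w : ℕ} (hw : 2 ≤ w) {a b : ℕ} (hab : a ≤ b) : Wr w a ≤ Wr w b := by
  unfold Wr
  exact pow_le_pow_right₀ (by exact_mod_cast (by omega : 1 ≤ w)) hab

/-- a sum of two near powers -/
lemma pat_add {w a b s : ℕ} {μ ν : ℝ} (hw : 2 ≤ w) (hμ : |μ| ≤ 1 / 64) (hν : |ν| ≤ 1 / 64)
    (h : Wr w s = Wr w a * (1 + μ) + Wr w b * (1 + ν)) :
    Wr w a * (-μ) = Wr w b * (1 + ν) ∨ (a = b ∧ μ + ν = 0) ∨ Wr w b * (-ν) = Wr w a * (1 + μ) := by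
  obtain ⟨hμ1, hμ2⟩ := abs_le.1 hμ
  obtain ⟨hν1, hν2⟩ := abs_le.1 hν
  have pa := wr_pos hw a
  have pb := wr_pos hw b
  have ps := wr_pos hw s
  rcases lt_trichotomy a b with hab | hab | hab
  · right; right
    have h1 := wr_lt hw hab
    rcases lt_trichotomy s b with hs | hs | hs
    · have := wr_lt hw hs
      nlinarith
    · rw [hs] at h
      linarith
    · have := wr_lt hw hs
      nlinarith
  · right; left
    refine ⟨hab, ?_⟩
    rw [← hab] at h
    have h1 : Wr w s = Wr w a * (2 + (μ + ν)) := by rw [h]; ring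
    rcases Nat.lt_or_ge a s with hs | hs
    · obtain ⟨t, ht⟩ := Nat.exists_eq_add_of_lt hs
      have h2 : Wr w s = Wr w a * ((w ^ (t + 1) : ℕ) : ℝ) := by
        rw [ht]
        unfold Wr
        push_cast
        ring
      rw [h2] at h1
      have h3 := mul_left_cancel₀ pa.ne' h1
      have h4 : ((2 : ℤ) : ℝ) + (μ + ν) = (((w ^ (t + 1) : ℕ) : ℤ) : ℝ) := by
        push_cast
        push_cast at h3
        linarith
      refine (int_zero h4 ?_).1
      rw [abs_lt]
      constructor <;> linarith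
    · have := wr_le hw hs
      nlinarith
  · left
    have h1 := wr_lt hw hab
    rcases lt_trichotomy s a with hs | hs | hs
    · have := wr_lt hw hs
      nlinarith
    · rw [hs] at h
      linarith
    · have := wr_lt hw hs
      nlinarith

/-- a difference of two near powers -/
lemma pat_sub {w a b s : ℕ} {μ ν : ℝ} (hw : 2 ≤ w) (hμ : |μ| ≤ 1 / 64) (hν : |ν| ≤ 1 / 64)
    (h : Wr w a * (1 + μ) = Wr w b * (1 + ν) + Wr w s) :
    (a = b ∧ Wr w a * (μ - ν) = Wr w s) ∨ Wr w a * μ = Wr w b * (1 + ν) ∨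
      (a = b + 1 ∧ 2 * μ = ν) := by
  obtain ⟨hμ1, hμ2⟩ := abs_le.1 hμ
  obtain ⟨hν1, hν2⟩ := abs_le.1 hν
  have pa := wr_pos hw a
  have pb := wr_pos hw b
  have ps := wr_pos hw s
  rcases lt_trichotomy a b with hab | hab | hab
  · have h1 := wr_lt hw hab
    nlinarith
  · left
    refine ⟨hab, ?_⟩
    rw [← hab] at h
    linarith
  · right
    have h1 := wr_lt hw hab
    rcases lt_trichotomy s a with hs | hs | hs
    · right
      obtain ⟨u, hu⟩ := Nat.exists_eq_add_of_lt hs
      have h2 : Wr w a = Wr w s * ((w ^ (u + 1) : ℕ) : ℝ) := by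
        rw [hu]
        unfold Wr
        push_cast
        ring
      have h3 : Wr w a * (61 / 128) ≤ Wr w s := by nlinarith
      have h4 : ((w ^ (u + 1) : ℕ) : ℝ) < 3 := by
        rw [h2] at h3
        by_contra hcon
        push Not at hcon
        nlinarith
      have h5 : w ^ (u + 1) < 3 := by exact_mod_cast h4
      have h6 : 2 ≤ w ^ (u + 1) := hw.trans (Nat.le_self_pow (by omega) w)
      have h7 : w ^ (u + 1) = 2 := by omega
      rw [h7] at h2
      push_cast at h2
      obtain ⟨v, hv⟩ := Nat.exists_eq_add_of_lt hab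
      have h8 : Wr w a = Wr w b * ((w ^ (v + 1) : ℕ) : ℝ) := by
        rw [hv]
        unfold Wr
        push_cast
        ring
      have h9 : Wr w b * (1 + ν) = Wr w a * (1 / 2 + μ) := by linarith
      rw [h8, mul_assoc] at h9
      have h10 := mul_left_cancel₀ pb.ne' h9
      have h11 : ((w ^ (v + 1) : ℕ) : ℝ) < 3 := by
        by_contra hcon
        push Not at hcon
        nlinarith
      have h12 : w ^ (v + 1) < 3 := by exact_mod_cast h11
      have h13 : 2 ≤ w ^ (v + 1) := hw.trans (Nat.le_self_pow (by omega) w)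
      have h14 : w ^ (v + 1) = 2 := by omega
      have h15 : v = 0 := by
        by_contra hcon
        have : 2 ^ 2 ≤ w ^ (v + 1) :=
          (Nat.pow_le_pow_left hw 2).trans (Nat.pow_le_pow_right (by omega) (by omega))
        omega
      rw [h14] at h10
      push_cast at h10
      refine ⟨by omega, by linarith⟩
    · left
      rw [hs] at h
      linarith
    · have := wr_lt hw hs
      nlinarith

section

variable {w i j m n E : ℕ} {e f : ℤ}

lemma Data.powA (h : Data w i j m n E e f) {A : ℕ} (hA : (A : ℤ) = w ^ i + e) :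
    (A : ℝ) ^ m = Wr w (i * m) * (1 + dev m (e / Wr w i)) := by
  have h1 : (A : ℝ) = Wr w i + e := by
    have : ((A : ℤ) : ℝ) = ((w ^ i + e : ℤ) : ℝ) := by rw [hA]
    push_cast at this
    rw [this]
    rfl
  have h2 : (A : ℝ) = Wr w i * (1 + e / Wr w i) := by
    rw [h1]
    have := (h.pos i).ne'
    field_simp
  rw [h2, mul_pow]
  unfold dev
  have h3 : Wr w (i * m) = Wr w i ^ m := by unfold Wr; rw [pow_mul]
  rw [h3]
  ring

lemma Data.powB (h : Data w i j m n E e f) {B : ℕ} (hB : (B : ℤ) = w ^ j + f) :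
    (B : ℝ) ^ n = Wr w (j * n) * (1 + dev n (f / Wr w j)) := by
  have h1 : (B : ℝ) = Wr w j + f := by
    have : ((B : ℤ) : ℝ) = ((w ^ j + f : ℤ) : ℝ) := by rw [hB]
    push_cast at this
    rw [this]
    rfl
  have h2 : (B : ℝ) = Wr w j * (1 + f / Wr w j) := by
    rw [h1]
    have := (h.pos j).ne'
    field_simp
  rw [h2, mul_pow]
  unfold dev
  have h3 : Wr w (j * n) = Wr w j ^ n := by unfold Wr; rw [pow_mul]
  rw [h3]
  ring

/-- no solutions when `w ^ i` is large compared with the exponents and `w ^ (j - i)` -/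
theorem Data.main (h : Data w i j m n E e f) {A B s : ℕ} (hA : (A : ℤ) = w ^ i + e)
    (hB : (B : ℤ) = w ^ j + f)
    (heq : w ^ s = A ^ m + B ^ n ∨ A ^ m = B ^ n + w ^ s ∨ B ^ n = A ^ m + w ^ s) : False := by
  have hPA := h.powA hA
  have hPB := h.powB hB
  have hmu := h.mu'
  have hnu := h.nu'
  have hpA : 0 < Wr w (i * m) := h.pos _
  have hpB : 0 < Wr w (j * n) := h.pos _
  obtain ⟨hμ1, hμ2⟩ := abs_le.1 hmu
  obtain ⟨hν1, hν2⟩ := abs_le.1 hnu
  have hws : ((w ^ s : ℕ) : ℝ) = Wr w s := by unfold Wr; push_cast; rfl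
  -- forms needed for D2, D3
  have key2 : ∀ ε : ℝ, (ε = 1 ∨ ε = -1) →
      Wr w (i * m) * (ε * dev m (e / Wr w i)) = Wr w (j * n) * (1 + dev n (f / Wr w j)) → False := by
    intro ε hε hh
    apply h.D2
    rw [← hh]
    congr 1
    have h1 : 0 < Wr w (i * m) * (ε * dev m (e / Wr w i)) := by
      rw [hh]
      exact mul_pos hpB (by linarith)
    have h2 : 0 < ε * dev m (e / Wr w i) := (mul_pos_iff_of_pos_left hpA).1 h1
    rcases hε with rfl | rfl
    · rw [one_mul] at h2 ⊢
      rw [abs_of_pos h2]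
    · rw [neg_one_mul] at h2 ⊢
      rw [abs_of_neg (by linarith)]
  have key3 : ∀ ε : ℝ, (ε = 1 ∨ ε = -1) →
      Wr w (j * n) * (ε * dev n (f / Wr w j)) = Wr w (i * m) * (1 + dev m (e / Wr w i)) → False := by
    intro ε hε hh
    apply h.D3
    rw [← hh]
    congr 1
    have h1 : 0 < Wr w (j * n) * (ε * dev n (f / Wr w j)) := by
      rw [hh]
      exact mul_pos hpA (by linarith)
    have h2 : 0 < ε * dev n (f / Wr w j) := (mul_pos_iff_of_pos_left hpB).1 h1
    rcases hε with rfl | rfl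
    · rw [one_mul] at h2 ⊢
      rw [abs_of_pos h2]
    · rw [neg_one_mul] at h2 ⊢
      rw [abs_of_neg (by linarith)]
  have key1 : i * m = j * n → Wr w (i * m) *
      |dev m (e / Wr w i) - dev n (f / Wr w j)| = Wr w s → False := fun h1 h2 => h.D1 s h1 h2
  rcases heq with heq | heq | heq
  · have hR : Wr w s = Wr w (i * m) * (1 + dev m (e / Wr w i)) +
        Wr w (j * n) * (1 + dev n (f / Wr w j)) := by
      rw [← hPA, ← hPB, ← hws, heq]
      push_cast
      rfl
    rcases pat_add h.w2 hmu hnu hR with h1 | ⟨h1, h2⟩ | h1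
    · exact key2 (-1) (Or.inr rfl) (by rw [neg_one_mul]; exact h1)
    · exact h.C3 h2
    · exact key3 (-1) (Or.inr rfl) (by rw [neg_one_mul]; exact h1)
  · have hR : Wr w (i * m) * (1 + dev m (e / Wr w i)) =
        Wr w (j * n) * (1 + dev n (f / Wr w j)) + Wr w s := by
      rw [← hPA, ← hPB, ← hws]
      exact_mod_cast heq
    rcases pat_sub h.w2 hmu hnu hR with ⟨h1, h2⟩ | h1 | ⟨h1, h2⟩
    · refine key1 h1 ?_
      rw [abs_of_pos]
      · exact h2
      · have h3 : 0 < Wr w (i * m) * (dev m (e / Wr w i) - dev n (f / Wr w j)) := by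
          rw [h2]; exact h.pos _
        exact (mul_pos_iff_of_pos_left hpA).1 h3
    · exact key2 1 (Or.inl rfl) (by rw [one_mul]; exact h1)
    · exact h.C1 h1 h2
  · have hR : Wr w (j * n) * (1 + dev n (f / Wr w j)) =
        Wr w (i * m) * (1 + dev m (e / Wr w i)) + Wr w s := by
      rw [← hPA, ← hPB, ← hws]
      exact_mod_cast heq
    rcases pat_sub h.w2 hnu hmu hR with ⟨h1, h2⟩ | h1 | ⟨h1, h2⟩
    · refine key1 h1.symm ?_
      rw [abs_sub_comm, abs_of_pos, ← h1]
      · exact h2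
      · have h3 : 0 < Wr w (j * n) * (dev n (f / Wr w j) - dev m (e / Wr w i)) := by
          rw [h2]; exact h.pos _
        exact (mul_pos_iff_of_pos_left hpB).1 h3
    · exact key3 1 (Or.inl rfl) (by rw [one_mul]; exact h1)
    · exact h.C2 h1 h2

end

end Pool.Agent.L5helper35.FC
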