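import Mathlib
import Pool.Agent.L5helper35.FC.CaseA

/-!
# Powers of `1 ± w ^ i` modulo powers of `w`
-/

set_option autoImplicit false

namespace Pool.Agent.L5helper35.FC

lemma dvd_key {p w i m t : ℕ} {e : ℤ} (hp : p.Prime) (hw : 0 < w) (hpw : p ∣ w) (he : Sgn e)
    (hm : 1 ≤ m)
    (hlte : emultiplicity (p : ℤ) ((1 + e * (w : ℤ) ^ i) ^ m - 1 ^ m) =
      emultiplicity (p : ℤ) ((1 + e * (w : ℤ) ^ i) - 1) + emultiplicity (p : ℤ) (m : ℤ))
    (h : (w : ℤ) ^ t ∣ (1 + e * (w : ℤ) ^ i) ^ m - 1) : t ≤ i ∨ 2 ^ (t - i) ≤ m := by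
  have hpp : Prime (p : ℤ) := Nat.prime_iff_prime_int.1 hp
  have h1 : emultiplicity (p : ℤ) ((w : ℤ) ^ t) ≤
      emultiplicity (p : ℤ) ((1 + e * (w : ℤ) ^ i) ^ m - 1 ^ m) := by
    rw [one_pow]
    exact emultiplicity_le_emultiplicity_of_dvd_right h
  have h2 : (1 + e * (w : ℤ) ^ i) - 1 = e * (w : ℤ) ^ i := by ring
  have h3 : emultiplicity (p : ℤ) (e * (w : ℤ) ^ i) = emultiplicity (p : ℤ) ((w : ℤ) ^ i) := by
    rcases he with rfl | rfl
    · rw [one_mul]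
    · rw [neg_one_mul, emultiplicity_neg]
  rw [hlte, h2, h3, emultiplicity_pow hpp, emultiplicity_pow hpp, Int.natCast_emultiplicity,
    Int.natCast_emultiplicity] at h1
  have hfw : FiniteMultiplicity p w := Nat.finiteMultiplicity_iff.2 ⟨hp.ne_one, hw⟩
  have hfm : FiniteMultiplicity p m := Nat.finiteMultiplicity_iff.2 ⟨hp.ne_one, hm⟩
  rw [hfw.emultiplicity_eq_multiplicity, hfm.emultiplicity_eq_multiplicity] at h1
  obtain ⟨k, hk⟩ : ∃ k, k = multiplicity p w := ⟨_, rfl⟩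
  obtain ⟨M, hM⟩ : ∃ M, M = multiplicity p m := ⟨_, rfl⟩
  rw [← hk, ← hM] at h1
  have h4 : t * k ≤ i * k + M := by exact_mod_cast h1
  have hk1 : 1 ≤ k := by
    rw [hk]
    exact (hfw.pow_dvd_iff_le_multiplicity).1 (by rw [pow_one]; exact hpw)
  have hMm : p ^ M ∣ m := by rw [hM]; exact pow_multiplicity_dvd p m
  rcases Nat.lt_or_ge i t with hit | hit
  · right
    obtain ⟨u, hu⟩ := Nat.exists_eq_add_of_lt hit
    have h5 : u + 1 ≤ M := by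
      rw [hu] at h4
      have h6 : (i + u + 1) * k = i * k + (u + 1) * k := by ring
      have h7 : (u + 1) * 1 ≤ (u + 1) * k := Nat.mul_le_mul_left _ hk1
      omega
    have h8 : t - i = u + 1 := by omega
    rw [h8]
    calc 2 ^ (u + 1) ≤ 2 ^ M := Nat.pow_le_pow_right (by norm_num) h5
      _ ≤ p ^ M := Nat.pow_le_pow_left hp.two_le M
      _ ≤ m := Nat.le_of_dvd hm hMm
  · left
    exact hit

/-- the order of `1 ± w ^ i` modulo powers of `w` -/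
theorem dvd_main {w i m t : ℕ} {e : ℤ} (hw2 : 2 ≤ w) (hev : Even w) (hi : 1 ≤ i)
    (hwi : w = 2 → 2 ≤ i) (he : Sgn e) (hm : 1 ≤ m)
    (h : (w : ℤ) ^ t ∣ (1 + e * (w : ℤ) ^ i) ^ m - 1) : t ≤ i ∨ 2 ^ (t - i) ≤ m := by
  obtain ⟨u, hu⟩ := hev
  by_cases h4 : (4 : ℤ) ∣ (w : ℤ) ^ i
  · refine dvd_key Nat.prime_two (by omega) ⟨u, by omega⟩ he hm ?_ h
    refine Int.two_pow_sub_pow' m ?_ ?_
    · have : (1 + e * (w : ℤ) ^ i) - 1 = e * (w : ℤ) ^ i := by ring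
      rw [this]
      exact dvd_mul_of_dvd_right h4 e
    · intro h2
      have h3 : (2 : ℤ) ∣ e * (w : ℤ) ^ i :=
        dvd_mul_of_dvd_right (dvd_trans (by norm_num) h4) e
      have h5 := (Int.dvd_add_left h3).1 h2
      norm_num at h5
  · -- `i = 1` and `w = 2 u` with `u` odd, `u ≥ 3`
    have hi1 : i = 1 := by
      by_contra hcon
      apply h4
      have h5 : (4 : ℤ) ∣ (w : ℤ) ^ 2 := ⟨(u : ℤ) ^ 2, by rw [hu]; push_cast; ring⟩
      exact h5.trans (pow_dvd_pow _ (by omega))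
    have hu3 : u ≠ 1 := by
      rintro rfl
      have := hwi (by omega)
      omega
    have huodd : ¬ 2 ∣ u := by
      rintro ⟨v, hv⟩
      apply h4
      rw [hi1, pow_one, hu, hv]
      exact ⟨v, by push_cast; ring⟩
    obtain ⟨p, hp, hpu⟩ := Nat.exists_prime_and_dvd hu3
    have hp2 : p ≠ 2 := by rintro rfl; exact huodd hpu
    have hpw : p ∣ w := by rw [hu]; exact (Nat.dvd_add_left hpu).2 hpu
    refine dvd_key hp (by omega) hpw he hm ?_ h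
    have hpp : Prime (p : ℤ) := Nat.prime_iff_prime_int.1 hp
    have hpd : (p : ℤ) ∣ e * (w : ℤ) ^ i :=
      dvd_mul_of_dvd_right (dvd_pow (by exact_mod_cast hpw) (by omega)) e
    rw [Int.natCast_emultiplicity]
    refine Int.emultiplicity_pow_sub_pow hp (hp.odd_of_ne_two hp2) ?_ ?_ m
    · have : (1 + e * (w : ℤ) ^ i) - 1 = e * (w : ℤ) ^ i := by ring
      rw [this]
      exact hpd
    · intro h2
      have h5 := (Int.dvd_add_left hpd).1 h2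
      exact hpp.not_unit (isUnit_of_dvd_one h5)

/-- signs -/
lemma Sgn.pow {e : ℤ} (h : Sgn e) (m : ℕ) : Sgn (e ^ m) := by
  rcases h with rfl | rfl
  · left; simp
  · rcases Nat.even_or_odd m with h | h
    · left; exact h.neg_one_pow
    · right; exact h.neg_one_pow

lemma Sgn.mul {e f : ℤ} (h : Sgn e) (h' : Sgn f) : Sgn (e * f) := by
  rcases h with rfl | rfl <;> rcases h' with rfl | rfl <;> simp [Sgn]

lemma Sgn.neg {e : ℤ} (h : Sgn e) : Sgn (-e) := by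
  rcases h with rfl | rfl <;> simp [Sgn]

lemma Sgn.sqZ {e : ℤ} (h : Sgn e) : e * e = 1 := by
  rcases h with rfl | rfl <;> norm_num

lemma Sgn.absZ {e : ℤ} (h : Sgn e) : |e| = 1 := by
  rcases h with rfl | rfl <;> norm_num

/-- The signs are forced: the equation is `a ^ m - b ^ n = ± w ^ s` with `a = 1 ± w ^ i`,
`b = 1 ± w ^ j`. -/
lemma forced {w i j m n s A B : ℕ} {e f e₁ e₂ e₃ : ℤ} (hw2 : 2 ≤ w) (hi : 1 ≤ i)
    (hwi : w = 2 → 2 ≤ i) (hij : i ≤ j) (hs : 2 ≤ s) (he : Sgn e) (hf : Sgn f) (h1 : Sgn e₁)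
    (h2 : Sgn e₂) (h3 : Sgn e₃) (hA : (A : ℤ) = w ^ i + e) (hB : (B : ℤ) = w ^ j + f)
    (heq : e₁ * (A : ℤ) ^ m + e₂ * (B : ℤ) ^ n + e₃ * (w : ℤ) ^ s = 0) :
    e₁ * e ^ m + e₂ * f ^ n = 0 ∧
      ∃ τ : ℤ, Sgn τ ∧ (1 + e * (w : ℤ) ^ i) ^ m - (1 + f * (w : ℤ) ^ j) ^ n = τ * (w : ℤ) ^ s := by
  obtain ⟨t, ht⟩ : ∃ t, t = min i s := ⟨_, rfl⟩
  have hti : t ≤ i := by omega
  have hts : t ≤ s := by omega
  -- the modulus is at least four
  have hmod : (4 : ℤ) ≤ (w : ℤ) ^ t ∨ (3 : ℤ) ≤ (w : ℤ) ^ t := by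
    rcases Nat.lt_or_ge w 3 with h | h
    · left
      have hw : w = 2 := by omega
      have h2i := hwi hw
      have ht2 : 2 ≤ t := by omega
      rw [hw]
      calc (4 : ℤ) = ((2 : ℕ) : ℤ) ^ 2 := by norm_num
        _ ≤ ((2 : ℕ) : ℤ) ^ t := pow_le_pow_right₀ (by norm_num) ht2
    · right
      calc (3 : ℤ) ≤ (w : ℤ) := by exact_mod_cast h
        _ ≤ (w : ℤ) ^ t := le_self_pow₀ (by exact_mod_cast (by omega : 1 ≤ w)) (by omega)
  have hmod3 : (3 : ℤ) ≤ (w : ℤ) ^ t := by rcases hmod with h | h <;> linarith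
  have hdA : (w : ℤ) ^ t ∣ (A : ℤ) ^ m - e ^ m := by
    refine dvd_trans ?_ (sub_dvd_pow_sub_pow _ _ m)
    rw [hA, add_sub_cancel_right]
    exact pow_dvd_pow _ hti
  have hdB : (w : ℤ) ^ t ∣ (B : ℤ) ^ n - f ^ n := by
    refine dvd_trans ?_ (sub_dvd_pow_sub_pow _ _ n)
    rw [hB, add_sub_cancel_right]
    exact pow_dvd_pow _ (hti.trans hij)
  have hdW : (w : ℤ) ^ t ∣ (w : ℤ) ^ s := pow_dvd_pow _ hts
  have hd : (w : ℤ) ^ t ∣ e₁ * e ^ m + e₂ * f ^ n := by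
    have h4 : e₁ * e ^ m + e₂ * f ^ n =
        -(e₁ * ((A : ℤ) ^ m - e ^ m)) - e₂ * ((B : ℤ) ^ n - f ^ n) - e₃ * (w : ℤ) ^ s := by
      linear_combination heq
    rw [h4]
    exact dvd_sub (dvd_sub ((dvd_neg).2 (dvd_mul_of_dvd_right hdA _)) (dvd_mul_of_dvd_right hdB _))
      (dvd_mul_of_dvd_right hdW _)
  have hz : e₁ * e ^ m + e₂ * f ^ n = 0 := by
    apply Int.eq_zero_of_abs_lt_dvd hd
    have h5 := (h1.mul (he.pow m)).absZ
    have h6 := (h2.mul (hf.pow n)).absZ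
    have h7 := abs_add_le (e₁ * e ^ m) (e₂ * f ^ n)
    linarith
  refine ⟨hz, -(e₁ * e ^ m * e₃), ((h1.mul (he.pow m)).mul h3).neg, ?_⟩
  have hAe : (1 + e * (w : ℤ) ^ i) ^ m = e ^ m * (A : ℤ) ^ m := by
    rw [← mul_pow, hA]
    congr 1
    linear_combination -he.sqZ
  have hBf : (1 + f * (w : ℤ) ^ j) ^ n = f ^ n * (B : ℤ) ^ n := by
    rw [← mul_pow, hB]
    congr 1
    linear_combination -hf.sqZ
  rw [hAe, hBf]
  -- multiply the equation by `σ = e₁ e ^ m = - e₂ f ^ n`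
  have hσ1 : (e₁ * e ^ m) * e₁ = e ^ m := by
    linear_combination e ^ m * h1.sqZ
  have hσ2 : (e₁ * e ^ m) * e₂ = - f ^ n := by
    linear_combination e₂ * hz - f ^ n * h2.sqZ
  linear_combination (e₁ * e ^ m) * heq - (A : ℤ) ^ m * hσ1 - (B : ℤ) ^ n * hσ2

end Pool.Agent.L5helper35.FC
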