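import Mathlib
import Pool.Agent.L5helper35.FC.CaseB
import Pool.Agent.L5helper35.FC.Padic
import Pool.Agent.TH888.B1.Arch

/-!
# Two bases `w ^ i ± 1`, `w ^ j ± 1` and a power of `w` smaller than `w ^ j`
-/

set_option autoImplicit false

namespace Pool.Agent.L5helper35.FC

lemma castWr {w i A : ℕ} {e : ℤ} (hA : (A : ℤ) = w ^ i + e) : (A : ℝ) = Wr w i + e := by
  have : ((A : ℤ) : ℝ) = ((w ^ i + e : ℤ) : ℝ) := by rw [hA]
  push_cast at this
  rw [this]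
  rfl

/-- the power of a base near a power of `w` -/
lemma pow_dev {w i m A : ℕ} {e : ℤ} (hw : 2 ≤ w) (hA : (A : ℤ) = w ^ i + e) :
    (A : ℝ) ^ m = Wr w (i * m) * (1 + dev m (e / Wr w i)) := by
  have h2 : (A : ℝ) = Wr w i * (1 + e / Wr w i) := by
    rw [castWr hA]
    have := (wr_pos hw i).ne'
    field_simp
  rw [h2, mul_pow]
  unfold dev
  have h3 : Wr w (i * m) = Wr w i ^ m := by unfold Wr; rw [pow_mul]
  rw [h3]
  ring

lemma dev_le {w i m E : ℕ} {e : ℤ} (hw : 2 ≤ w) (he : Sgn e) (hE : 2 ≤ E) (hmE : m ≤ E)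
    (hW : 64 * E ^ 2 ≤ w ^ i) : |dev m (e / Wr w i)| ≤ 65 / 64 * (m / Wr w i) ∧
      63 / 64 * (m / Wr w i) ≤ |dev m (e / Wr w i)| ∧ |dev m (e / Wr w i)| ≤ 1 / 64 := by
  have hp := wr_pos hw i
  have hx : |(e : ℝ) / Wr w i| = 1 / Wr w i := by rw [abs_div, he.abs, abs_of_pos hp]
  have hWR : 64 * (E : ℝ) ^ 2 ≤ Wr w i := by unfold Wr; exact_mod_cast hW
  have hER : (2 : ℝ) ≤ E := by exact_mod_cast hE
  have hmR : (m : ℝ) ≤ E := by exact_mod_cast hmE
  have hmx : (m : ℝ) * |(e : ℝ) / Wr w i| ≤ 1 / 128 := by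
    rw [hx, mul_one_div, div_le_iff₀ hp]
    nlinarith
  have h1 := mu_bounds hmx
  rw [hx, mul_one_div] at h1 hmx
  refine ⟨h1.2, h1.1, h1.2.trans ?_⟩
  linarith

/-- from a signed equation to the three cases -/
lemma three {a b c : ℕ} {e₁ e₂ e₃ : ℤ} (ha : 0 < a) (hb : 0 < b) (hc : 0 < c) (h1 : Sgn e₁)
    (h2 : Sgn e₂) (h3 : Sgn e₃) (h : e₁ * (a : ℤ) + e₂ * (b : ℤ) + e₃ * (c : ℤ) = 0) :
    c = a + b ∨ a = b + c ∨ b = a + c := by
  rcases h1 with rfl | rfl <;> rcases h2 with rfl | rfl <;> rcases h3 with rfl | rfl <;> omega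

/-- if `w ^ s` is less than `w ^ j`, then the two other terms are near each other -/
lemma close {w j n s : ℕ} {X Y : ℝ} {E : ℕ} (hw : 2 ≤ w) (hE : 2 ≤ E) (hV : 64 * E ^ 2 ≤ w ^ j)
    (hn : 2 ≤ n) (hs : s < j) (hY : Wr w (j * n) * (63 / 64) ≤ Y) (hX0 : 0 < X)
    (heq : Wr w s = X + Y ∨ X = Y + Wr w s ∨ Y = X + Wr w s) :
    |X - Y| = Wr w s ∧ Wr w s * 512 ≤ Wr w (j * n) ∧ Wr w s * (2 * Wr w j) ≤ Wr w (j * n) := by
  have h1 := wr_lt hw hs
  have hj0 := wr_pos hw j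
  have hs0 := wr_pos hw s
  have h2 : Wr w j * Wr w j ≤ Wr w (j * n) := by
    unfold Wr
    rw [← pow_add]
    exact pow_le_pow_right₀ (by exact_mod_cast (by omega : 1 ≤ w)) (by nlinarith)
  have h3 : (256 : ℝ) ≤ Wr w j := by
    have : 256 ≤ w ^ j := by nlinarith
    unfold Wr
    exact_mod_cast this
  have h4 : Wr w s * 512 ≤ Wr w (j * n) := by nlinarith
  have h5 : Wr w s * (2 * Wr w j) ≤ Wr w (j * n) := by nlinarith
  refine ⟨?_, h4, h5⟩
  rcases heq with h | h | h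
  · exfalso
    nlinarith
  · rw [h, add_sub_cancel_left, abs_of_pos hs0]
  · rw [h, abs_sub_comm, add_sub_cancel_left, abs_of_pos hs0]

/-- the small power case when `w ^ i` is large compared with the exponents -/
lemma beta1 {w i j m n E s A B : ℕ} {e f : ℤ} (hw : 2 ≤ w) (hev : Even w) (hi : 1 ≤ i)
    (hij : i ≤ j) (hm2 : 2 ≤ m) (hn2 : 2 ≤ n) (hmE : m ≤ E) (hnE : n ≤ E)
    (hnt : ¬ (m = 2 ∧ n = 2)) (he : Sgn e) (hf : Sgn f) (hef : i = j → e = -f)
    (hW : 64 * E ^ 2 ≤ w ^ i) (hs : s < j) (hA : (A : ℤ) = w ^ i + e) (hB : (B : ℤ) = w ^ j + f)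
    (heq : w ^ s = A ^ m + B ^ n ∨ A ^ m = B ^ n + w ^ s ∨ B ^ n = A ^ m + w ^ s) : False := by
  rcases Nat.eq_or_lt_of_le hij with hij' | hlt
  · have hd : Data w i j m n E e f := ⟨hw, hev, hi, hij, hm2, hn2, hmE, hnE, hnt, he, hf, hef, by
      rw [hij', Nat.sub_self, pow_zero, mul_one, ← hij']
      exact hW⟩
    exact hd.main hA hB heq
  have hE : 2 ≤ E := hm2.trans hmE
  have hV : 64 * E ^ 2 ≤ w ^ j := hW.trans (Nat.pow_le_pow_right (by omega) hij)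
  obtain ⟨hμ1, hμ2, hμ3⟩ := dev_le (e := e) hw he hE hmE hW
  obtain ⟨hν1, hν2, hν3⟩ := dev_le (e := f) hw hf hE hnE hV
  have hPA := pow_dev (m := m) hw hA
  have hPB := pow_dev (m := n) hw hB
  have pP := wr_pos hw (i * m)
  have pQ := wr_pos hw (j * n)
  have ps := wr_pos hw s
  obtain ⟨a1, a2⟩ := abs_le.1 hμ3
  obtain ⟨b1, b2⟩ := abs_le.1 hν3
  have hws : ((w ^ s : ℕ) : ℝ) = Wr w s := by unfold Wr; push_cast; rfl
  have hcl := close (X := (A : ℝ) ^ m) (Y := (B : ℝ) ^ n) hw hE hV hn2 hs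
    (by rw [hPB]; nlinarith) (by rw [hPA]; exact mul_pos pP (by linarith))
    (by rw [← hws]; exact_mod_cast heq)
  obtain ⟨hc1, hc2, hc3⟩ := hcl
  rw [hPA, hPB] at hc1
  have hexp : i * m = j * n := by
    rcases lt_trichotomy (i * m) (j * n) with h | h | h
    · exfalso
      have h1 := wr_lt hw h
      have h2 := neg_abs_le (Wr w (i * m) * (1 + dev m (↑e / Wr w i)) -
        Wr w (j * n) * (1 + dev n (↑f / Wr w j)))
      rw [hc1] at h2
      nlinarith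
    · exact h
    · exfalso
      have h1 := wr_lt hw h
      have h2 := le_abs_self (Wr w (i * m) * (1 + dev m (↑e / Wr w i)) -
        Wr w (j * n) * (1 + dev n (↑f / Wr w j)))
      rw [hc1] at h2
      nlinarith
  have hn : n < m := by
    by_contra hcon
    push Not at hcon
    have h1 : (i + 1) * m ≤ j * n := Nat.mul_le_mul hlt hcon
    nlinarith
  have hm3 : 3 ≤ m := by omega
  rw [← hexp, ← mul_sub, abs_mul, abs_of_pos pP] at hc1
  have hWp := wr_pos hw i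
  have hVp := wr_pos hw j
  have hVW := wr_lt hw hlt
  have hnV : (n : ℝ) / Wr w j ≤ 1 / 2 * (m / Wr w i) := by
    rw [mul_div_assoc', div_le_div_iff₀ hVp hWp]
    have h1 : (n : ℝ) ≤ m := by exact_mod_cast hn.le
    have h2 : (0 : ℝ) ≤ n := Nat.cast_nonneg n
    have h3 : (0 : ℝ) ≤ m := Nat.cast_nonneg m
    calc (n : ℝ) * Wr w i ≤ m * Wr w i := by gcongr
      _ ≤ m * (1 / 2 * Wr w j) := by
        apply mul_le_mul_of_nonneg_left _ h3
        linarith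
      _ = _ := by ring
  have hdiff : 61 / 128 * ((m : ℝ) / Wr w i) ≤
      |1 + dev m (↑e / Wr w i) - (1 + dev n (↑f / Wr w j))| := by
    have h1 : 1 + dev m (↑e / Wr w i) - (1 + dev n (↑f / Wr w j)) =
      dev m (↑e / Wr w i) - dev n (↑f / Wr w j) := by ring
    rw [h1]
    have h2 := abs_sub_abs_le_abs_sub (dev m (↑e / Wr w i)) (dev n (↑f / Wr w j))
    linarith
  have hm3R : (3 : ℝ) ≤ m := by exact_mod_cast hm3
  have h1 : 1 / Wr w i < |1 + dev m (↑e / Wr w i) - (1 + dev n (↑f / Wr w j))| := by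
    refine lt_of_lt_of_le ?_ hdiff
    rw [mul_div_assoc', div_lt_div_iff_of_pos_right hWp]
    linarith
  have h2 : Wr w (i * m) * (1 / Wr w i) < Wr w s := by
    rw [← hc1]
    exact mul_lt_mul_of_pos_left h1 pP
  obtain ⟨k, hk⟩ : ∃ k, m = k + 1 := ⟨m - 1, by omega⟩
  have h3 : Wr w (i * m) * (1 / Wr w i) = Wr w (i * k) := by
    have : Wr w (i * m) = Wr w (i * k) * Wr w i := by
      rw [hk]
      unfold Wr
      rw [← pow_add]
      congr 1
    rw [this]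
    field_simp
  rw [h3] at h2
  have h4 : i * k < s := by
    by_contra hcon
    push Not at hcon
    have := wr_le hw hcon
    linarith
  have h5 : i * k + 2 ≤ j := by omega
  have h6 : (i * k + 2) * 2 ≤ j * n := Nat.mul_le_mul h5 hn2
  rw [← hexp, hk] at h6
  have h7 : i * (k + 1) = i * k + i := by ring
  rw [h7] at h6
  have h8 : 2 ≤ k := by omega
  have h9 : i * 2 ≤ i * k := Nat.mul_le_mul_left _ h8
  omega

/-- the small power case when `w ^ i` is small -/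
lemma beta2 {w i j m n E s A B L : ℕ} {e f : ℤ} (hw : 2 ≤ w) (hm2 : 2 ≤ m) (hn2 : 2 ≤ n)
    (hnE : n ≤ E) (hi : 1 ≤ i) (he : Sgn e) (hf : Sgn f) (hV : 64 * E ^ 2 ≤ w ^ j)
    (hs : s < j) (hA : (A : ℤ) = w ^ i + e) (hB : (B : ℤ) = w ^ j + f) (hA2 : 2 ≤ A)
    (heq : w ^ s = A ^ m + B ^ n ∨ A ^ m = B ^ n + w ^ s ∨ B ^ n = A ^ m + w ^ s)
    (hL : 1 ≤ L) (hAL : A ≤ 2 ^ L) (hwL : w ≤ 2 ^ L) (hjnL : j * n ≤ 2 ^ L) :
    (w : ℝ) ^ j ≤ 4 * E * Real.exp (10 ^ 9 * (L : ℝ) ^ 4) := by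
  have hE : 2 ≤ E := hn2.trans hnE
  have hj1 : 1 ≤ j := by omega
  obtain ⟨hν1, hν2, hν3⟩ := dev_le (e := f) hw hf hE hnE hV
  have hPB := pow_dev (m := n) hw hB
  have pQ := wr_pos hw (j * n)
  have ps := wr_pos hw s
  have pV := wr_pos hw j
  obtain ⟨b1, b2⟩ := abs_le.1 hν3
  have hws : ((w ^ s : ℕ) : ℝ) = Wr w s := by unfold Wr; push_cast; rfl
  have hAm : 0 < (A : ℝ) ^ m := by positivity
  obtain ⟨hc1, hc2, hc3⟩ := close (X := (A : ℝ) ^ m) (Y := (B : ℝ) ^ n) hw hE hV hn2 hs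
    (by rw [hPB]; nlinarith) hAm
    (by rw [← hws]; exact_mod_cast heq)
  rw [hPB] at hc1
  have hEW : 64 * (E : ℝ) ^ 2 ≤ Wr w j := by unfold Wr; exact_mod_cast hV
  have hER : (2 : ℝ) ≤ E := by exact_mod_cast hE
  have hnER : (n : ℝ) ≤ E := by exact_mod_cast hnE
  -- the ratio
  have h1 : |(A : ℝ) ^ m / Wr w (j * n) - 1| ≤ 2 * E / Wr w j := by
    have h2 : (A : ℝ) ^ m / Wr w (j * n) - 1 = dev n (↑f / Wr w j) +
        ((A : ℝ) ^ m - Wr w (j * n) * (1 + dev n (↑f / Wr w j))) / Wr w (j * n) := by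
      field_simp
      ring
    rw [h2]
    refine (abs_add_le _ _).trans ?_
    rw [abs_div, hc1, abs_of_pos pQ]
    have h3 : Wr w s / Wr w (j * n) ≤ 1 / (2 * Wr w j) := by
      rw [div_le_div_iff₀ pQ (by positivity)]
      linarith
    have h4 : 65 / 64 * ((n : ℝ) / Wr w j) ≤ 65 / 64 * (E / Wr w j) := by gcongr
    have h5 : 1 / (2 * Wr w j) = 1 / 2 / Wr w j := by field_simp
    have h6 : 65 / 64 * (E / Wr w j) + 1 / 2 / Wr w j ≤ 2 * E / Wr w j := by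
      rw [mul_div_assoc', ← add_div]
      apply div_le_div_of_nonneg_right _ pV.le
      linarith
    linarith
  have h2 : 2 * (E : ℝ) / Wr w j ≤ 1 / 4 := by
    rw [div_le_iff₀ pV]
    nlinarith
  have h3 := Pool.Agent.H374R2.W.QM.abs_log_le (h1.trans h2)
  have h4 : Real.log ((A : ℝ) ^ m / Wr w (j * n)) = m * Real.log A - (j * n : ℕ) * Real.log w := by
    rw [Real.log_div hAm.ne' pQ.ne']
    unfold Wr
    rw [Real.log_pow, Real.log_pow]
  rw [h4] at h3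
  have hne : w ^ (j * n) ≠ A ^ m := by
    intro h
    -- `A` is coprime to `w`
    have hcop : Nat.Coprime A w := by
      rw [Nat.coprime_iff_gcd_eq_one, ← Nat.dvd_one]
      have hg1 : (((Nat.gcd A w : ℕ)) : ℤ) ∣ (A : ℤ) := by exact_mod_cast Nat.gcd_dvd_left A w
      have hg2 : (((Nat.gcd A w : ℕ)) : ℤ) ∣ (w : ℤ) ^ i :=
        dvd_pow (by exact_mod_cast Nat.gcd_dvd_right A w) (by omega)
      have hg3 : (((Nat.gcd A w : ℕ)) : ℤ) ∣ e := by
        have : e = (A : ℤ) - (w : ℤ) ^ i := by rw [hA]; ring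
        rw [this]
        exact dvd_sub hg1 hg2
      have hg4 : (((Nat.gcd A w : ℕ)) : ℤ) ∣ 1 := by
        rcases he with rfl | rfl
        · exact hg3
        · exact (dvd_neg).1 hg3
      exact_mod_cast hg4
    have hcop2 : Nat.Coprime (A ^ m) (w ^ (j * n)) := Nat.Coprime.pow _ _ hcop
    rw [h, Nat.coprime_self] at hcop2
    have : 2 ≤ A ^ m := hA2.trans (Nat.le_self_pow (by omega) A)
    omega
  have hjn : 1 ≤ j * n := Nat.mul_pos hj1 (by omega)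
  have h5 := Pool.Agent.TH888.B1.arch_log hL hA2 hw hAL hwL (by omega : 1 ≤ m) hjn hjnL hne
  rw [abs_sub_comm] at h3
  have h6 : Real.exp (-(10 ^ 9 * (L : ℝ) ^ 4)) ≤ 2 * (2 * E / Wr w j) :=
    h5.trans (h3.trans (mul_le_mul_of_nonneg_left h1 (by norm_num)))
  rw [Real.exp_neg, inv_eq_one_div, mul_div_assoc', div_le_div_iff₀ (Real.exp_pos _) pV, one_mul]
    at h6
  unfold Wr at h6
  linarith

end Pool.Agent.L5helper35.FC
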