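import Mathlib
import Pool.Agent.L5helper35.FC.CaseC
import Pool.Agent.R477.FC.Fam

/-!
# Two bases within one of powers of `w`, the third a power of `w`: the larger base is bounded
-/

set_option autoImplicit false

namespace Pool.Agent.L5helper35.FC

open Pool.Agent.R477.FC

/-- fourth powers of the logarithm -/
lemma grow4 (K : ℕ) : ∃ S₀ : ℕ, ∀ S : ℕ, S₀ ≤ S → K * (Nat.log 2 S + 1) ^ 4 < S := by
  obtain ⟨L₀, hL₀⟩ := Pool.Agent.TH888.B1.growth (2 * (K + 1)) 4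
  refine ⟨2 ^ (L₀ + 1), fun S hS => ?_⟩
  by_contra hcon
  push Not at hcon
  have hS0 : S ≠ 0 := by
    have : 0 < 2 ^ (L₀ + 1) := by positivity
    omega
  have h1 : 2 ^ Nat.log 2 S ≤ S := Nat.pow_log_le_self 2 hS0
  have h2 : 2 ^ (Nat.log 2 S + 1) ≤ 2 * (K + 1) * (Nat.log 2 S + 1) ^ 4 := by
    rw [pow_succ]
    have h3 : K * (Nat.log 2 S + 1) ^ 4 ≤ (K + 1) * (Nat.log 2 S + 1) ^ 4 :=
      Nat.mul_le_mul_right _ (by omega)
    have h4 : 2 * (K + 1) * (Nat.log 2 S + 1) ^ 4 = 2 * ((K + 1) * (Nat.log 2 S + 1) ^ 4) := by ring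
    omega
  have h3 := hL₀ _ h2
  have h4 : L₀ + 1 ≤ Nat.log 2 S := Nat.le_log_of_pow_le (by norm_num) hS
  omega

/-- polynomials in `S` in terms of the logarithm of `S` -/
lemma poly_le (C κ S : ℕ) (hS : 2 ≤ S) :
    C * S ^ κ ≤ 2 ^ ((C + κ) * (Nat.log 2 S + 1)) := by
  have h1 : S ≤ 2 ^ (Nat.log 2 S + 1) := (Nat.lt_pow_succ_log_self (by norm_num) _).le
  obtain ⟨l, hl⟩ : ∃ l, l = Nat.log 2 S + 1 := ⟨_, rfl⟩
  rw [← hl] at h1 ⊢
  have hl1 : 1 ≤ l := by omega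
  have h2 : C ≤ 2 ^ C := Nat.lt_two_pow_self.le
  calc C * S ^ κ ≤ 2 ^ C * (2 ^ l) ^ κ := Nat.mul_le_mul h2 (Nat.pow_le_pow_left h1 κ)
    _ = 2 ^ (C + l * κ) := by rw [← pow_mul, ← pow_add]
    _ ≤ 2 ^ ((C + κ) * l) := Nat.pow_le_pow_right (by norm_num) (by nlinarith)

/-- the larger base is bounded -/
theorem core (κ' : ℕ) : ∃ S₀ : ℕ, ∀ (w i j m n s A B N : ℕ) (e f e₁ e₂ e₃ : ℤ), 2 ≤ w → Even w →
    1 ≤ i → i ≤ j → (w = 2 → 2 ≤ i) → (A : ℤ) = w ^ i + e → (B : ℤ) = w ^ j + f → Sgn e → Sgn f →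
    ¬ (m = 2 ∧ n = 2) → SSol A B w m n s e₁ e₂ e₃ → 1 ≤ N → N ≤ max A (max B (w ^ s)) →
    (w : ℝ) ≤ Real.log N ^ κ' → Nat.log 2 (w ^ j) + 2 ≤ S₀ := by
  obtain ⟨C, κ, hC⟩ := exps
  obtain ⟨D, hD⟩ : ∃ D, D = (C + κ + 2) * (κ' + 1) := ⟨_, rfl⟩
  obtain ⟨S₁, hS₁⟩ := grow4 (2 * 10 ^ 9 * (2 * D + 8) ^ 4 + 100 * (D + 1) ^ 2)
  refine ⟨S₁ + 1, ?_⟩
  intro w i j m n s A B N e f e₁ e₂ e₃ hw hev hi hij hwi hA hB he hf hnt hs hN1 hN hwN
  obtain ⟨S, hS⟩ : ∃ S, S = Nat.log 2 (w ^ j) + 2 := ⟨_, rfl⟩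
  rw [← hS]
  by_contra hcon
  push Not at hcon
  have hgr := hS₁ S (by omega)
  obtain ⟨l, hl⟩ : ∃ l, l = Nat.log 2 S + 1 := ⟨_, rfl⟩
  rw [← hl] at hgr
  have hl1 : 1 ≤ l := by omega
  have hS2 : 2 ≤ S := by omega
  have hSl : S ≤ 2 ^ l := by rw [hl]; exact (Nat.lt_pow_succ_log_self (by norm_num) _).le
  -- the sizes of the bases
  have hVpos : 0 < w ^ j := by positivity
  have hV1 : w ^ j < 2 ^ (S - 1) := by
    rw [hS]
    exact Nat.lt_pow_succ_log_self (by norm_num) _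
  have hV2 : 2 ^ (S - 2) ≤ w ^ j := by
    rw [hS]
    exact Nat.pow_log_le_self 2 hVpos.ne'
  have h2S : 2 ^ (S - 1) * 2 = 2 ^ S := by rw [← pow_succ]; congr 1; omega
  have hWV : w ^ i ≤ w ^ j := Nat.pow_le_pow_right (by omega) hij
  have hW4 : 4 ≤ w ^ i := by
    rcases Nat.lt_or_ge w 4 with h | h
    · obtain ⟨u, hu⟩ := hev
      have hw2 : w = 2 := by omega
      have := hwi hw2
      rw [hw2]
      calc 4 = 2 ^ 2 := by norm_num
        _ ≤ 2 ^ i := Nat.pow_le_pow_right (by norm_num) this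
    · exact h.trans (Nat.le_self_pow (by omega) w)
  have hA' : A ≤ w ^ i + 1 ∧ w ^ i ≤ A + 1 := by
    have h1 : (w : ℤ) ^ i = ((w ^ i : ℕ) : ℤ) := by push_cast; rfl
    rw [h1] at hA
    rcases he with rfl | rfl <;> constructor <;> omega
  have hB' : B ≤ w ^ j + 1 ∧ w ^ j ≤ B + 1 := by
    have h1 : (w : ℤ) ^ j = ((w ^ j : ℕ) : ℤ) := by push_cast; rfl
    rw [h1] at hB
    rcases hf with rfl | rfl <;> constructor <;> omega
  have hA3 : 3 ≤ A := by omega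
  have hB3 : 3 ≤ B := by omega
  have hwV : w ≤ w ^ j := Nat.le_self_pow (by omega) w
  have hAS : A ≤ 2 ^ S := by omega
  have hBS : B ≤ 2 ^ S := by omega
  have hwS : w ≤ 2 ^ S := by omega
  obtain ⟨d1, d2, d3⟩ := hC S hS2 A B w m n s e₁ e₂ e₃ hs hAS hBS hwS
  obtain ⟨E, hE⟩ : ∃ E, E = C * S ^ κ := ⟨_, rfl⟩
  rw [← hE] at d1 d2 d3
  have hmE : m ≤ E := d1 (by omega)
  have hnE : n ≤ E := d2 (by omega)
  have hsE : s ≤ E := d3 hw
  have hm2 := hs.p2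
  have hn2 := hs.q2
  have hs2 := hs.r2
  have hE2 : 2 ≤ E := hm2.trans hmE
  -- `E ≤ 2 ^ (D l)`
  have hEl0 : E ≤ 2 ^ ((C + κ) * l) := by
    rw [hE, hl]
    exact poly_le C κ S hS2
  have hEl : E ≤ 2 ^ (D * l) := by
    refine hEl0.trans (Nat.pow_le_pow_right (by norm_num) (Nat.mul_le_mul_right _ ?_))
    rw [hD]
    nlinarith
  -- `w ≤ 2 ^ (D l)`
  have hwl : w ≤ 2 ^ (D * l) := by
    have h1 : N ≤ 2 ^ (S * (E + 1)) := by
      refine hN.trans (max_le ?_ (max_le ?_ ?_))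
      · exact hAS.trans (Nat.pow_le_pow_right (by norm_num) (Nat.le_mul_of_pos_right S (by omega)))
      · exact hBS.trans (Nat.pow_le_pow_right (by norm_num) (Nat.le_mul_of_pos_right S (by omega)))
      · calc w ^ s ≤ (2 ^ S) ^ s := Nat.pow_le_pow_left hwS s
          _ = 2 ^ (S * s) := by rw [← pow_mul]
          _ ≤ 2 ^ (S * (E + 1)) := Nat.pow_le_pow_right (by norm_num) (Nat.mul_le_mul_left _ (by omega))
    have h2 : Real.log N ≤ ((S * (E + 1) : ℕ) : ℝ) := by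
      have hN0 : (0 : ℝ) < N := by exact_mod_cast hN1
      have h3 : (N : ℝ) ≤ (2 : ℝ) ^ (S * (E + 1)) := by exact_mod_cast h1
      have h4 := Real.log_le_log hN0 h3
      rw [Real.log_pow] at h4
      have h5 : Real.log 2 ≤ 1 := by linarith [Real.log_two_lt_d9]
      have h6 : (0 : ℝ) ≤ ((S * (E + 1) : ℕ) : ℝ) := Nat.cast_nonneg _
      nlinarith
    have h3 : (0 : ℝ) ≤ Real.log N := Real.log_nonneg (by exact_mod_cast hN1)
    have h4 : (w : ℝ) ≤ ((S * (E + 1) : ℕ) : ℝ) ^ κ' := hwN.trans (pow_le_pow_left₀ h3 h2 κ')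
    have h5 : w ≤ (S * (E + 1)) ^ κ' := by exact_mod_cast h4
    have h6 : S * (E + 1) ≤ 2 ^ ((C + κ + 2) * l) := by
      have h7 : E + 1 ≤ 2 ^ ((C + κ) * l + 1) := by
        rw [pow_succ]
        have : 1 ≤ 2 ^ ((C + κ) * l) := Nat.one_le_two_pow
        omega
      calc S * (E + 1) ≤ 2 ^ l * 2 ^ ((C + κ) * l + 1) := Nat.mul_le_mul hSl h7
        _ = 2 ^ (l + ((C + κ) * l + 1)) := by rw [← pow_add]
        _ ≤ 2 ^ ((C + κ + 2) * l) := Nat.pow_le_pow_right (by norm_num) (by nlinarith)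
    calc w ≤ (S * (E + 1)) ^ κ' := h5
      _ ≤ (2 ^ ((C + κ + 2) * l)) ^ κ' := Nat.pow_le_pow_left h6 κ'
      _ = 2 ^ ((C + κ + 2) * l * κ') := by rw [← pow_mul]
      _ ≤ 2 ^ (D * l) := by
        apply Nat.pow_le_pow_right (by norm_num)
        rw [hD]
        nlinarith [Nat.zero_le ((C + κ + 2) * l)]
  have hD2 : 2 ≤ D := by rw [hD]; nlinarith
  -- consequences of the growth
  have hl4 : l ^ 2 ≤ l ^ 4 := Nat.pow_le_pow_right hl1 (by norm_num)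
  have hll : l ≤ l ^ 4 := Nat.le_self_pow (by norm_num) l
  have hgr1 : 2 * 10 ^ 9 * (2 * D + 8) ^ 4 * l ^ 4 + 100 * (D + 1) ^ 2 * l ^ 4 < S := by
    have : (2 * 10 ^ 9 * (2 * D + 8) ^ 4 + 100 * (D + 1) ^ 2) * l ^ 4 =
      2 * 10 ^ 9 * (2 * D + 8) ^ 4 * l ^ 4 + 100 * (D + 1) ^ 2 * l ^ 4 := by ring
    omega
  have hDl1 : 1 ≤ D * l := Nat.mul_pos (by omega) hl1
  have hsmall1 : 8 + 2 * (D * l) + 2 * (D * l) * (D * l) + 2 ≤ S := by
    have h1 : (D * l) ^ 2 ≤ (D + 1) ^ 2 * l ^ 4 := by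
      rw [mul_pow]
      exact Nat.mul_le_mul (Nat.pow_le_pow_left (by omega) 2) hl4
    have h2 : D * l ≤ (D * l) ^ 2 := Nat.le_self_pow (by norm_num) _
    have h3 : 100 * (D + 1) ^ 2 * l ^ 4 = 100 * ((D + 1) ^ 2 * l ^ 4) := by ring
    have h4 : 2 * (D * l) * (D * l) = 2 * (D * l) ^ 2 := by ring
    have h5 : 1 ≤ (D * l) ^ 2 := Nat.one_le_pow _ _ hDl1
    omega
  have hEl2 : 64 * E ^ 2 ≤ 2 ^ (6 + 2 * (D * l)) := by
    calc 64 * E ^ 2 ≤ 64 * (2 ^ (D * l)) ^ 2 := Nat.mul_le_mul_left _ (Nat.pow_le_pow_left hEl 2)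
      _ = 2 ^ (6 + 2 * (D * l)) := by rw [← pow_mul, pow_add]; norm_num; ring
  have hVE : 64 * E ^ 2 ≤ w ^ j :=
    hEl2.trans ((Nat.pow_le_pow_right (by norm_num) (by omega)).trans hV2)
  -- the equation
  have heq3 : w ^ s = A ^ m + B ^ n ∨ A ^ m = B ^ n + w ^ s ∨ B ^ n = A ^ m + w ^ s := by
    have hA0 : 0 < A ^ m := by positivity
    have hB0 : 0 < B ^ n := by positivity
    have hw0 : 0 < w ^ s := by positivity
    exact three hA0 hB0 hw0 hs.s1 hs.s2 hs.s3 (by push_cast; exact hs.eq)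
  have hef : i = j → e = -f := by
    intro h
    by_contra hne
    have hfe : e = f := by
      rcases he with rfl | rfl <;> rcases hf with rfl | rfl <;> simp_all
    have hAB : A = B := by
      have : (A : ℤ) = B := by rw [hA, hB, h, hfe]
      exact_mod_cast this
    have hc := hs.xy
    rw [hAB, Nat.coprime_self] at hc
    omega
  rcases Nat.lt_or_ge s j with hsj | hjs
  · rcases Nat.lt_or_ge (w ^ i) (64 * E ^ 2) with hWs | hWl
    · -- `w ^ i` small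
      obtain ⟨L, hL⟩ : ∃ L, L = (2 * D + 8) * l := ⟨_, rfl⟩
      have hL1 : 1 ≤ L := by rw [hL]; exact Nat.mul_pos (by omega) hl1
      have hAL : A ≤ 2 ^ L := by
        calc A ≤ 2 * w ^ i := by omega
          _ ≤ 2 * 2 ^ (6 + 2 * (D * l)) := by omega
          _ = 2 ^ (7 + 2 * (D * l)) := by rw [← pow_succ']; congr 1; omega
          _ ≤ 2 ^ L := by
            apply Nat.pow_le_pow_right (by norm_num)
            rw [hL]
            nlinarith
      have hwL : w ≤ 2 ^ L := hwl.trans (Nat.pow_le_pow_right (by norm_num) (by rw [hL]; nlinarith))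
      have hjS : j ≤ S := by
        have h1 : 2 ^ j ≤ w ^ j := Nat.pow_le_pow_left hw j
        have h2 : 2 ^ j < 2 ^ (S - 1) := by omega
        have := (Nat.pow_lt_pow_iff_right (by norm_num : 1 < 2)).1 h2
        omega
      have hjnL : j * n ≤ 2 ^ L := by
        calc j * n ≤ 2 ^ l * 2 ^ (D * l) := Nat.mul_le_mul (hjS.trans hSl) (hnE.trans hEl)
          _ = 2 ^ (l + D * l) := by rw [← pow_add]
          _ ≤ 2 ^ L := by
            apply Nat.pow_le_pow_right (by norm_num)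
            rw [hL]
            nlinarith
      have hfin := beta2 hw hm2 hn2 hnE hi he hf hVE hsj hA hB (by omega) heq3 hL1 hAL hwL hjnL
      have h1 : (2 : ℝ) ^ (S - 2) ≤ (w : ℝ) ^ j := by exact_mod_cast hV2
      have h8 : Real.exp (10 ^ 9 * (L : ℝ) ^ 4) ≤ 2 ^ (2 * 10 ^ 9 * L ^ 4) := by
        have e1 : Real.exp (10 ^ 9 * (L : ℝ) ^ 4) = Real.exp 1 ^ (10 ^ 9 * L ^ 4) := by
          rw [← Real.exp_nat_mul]; push_cast; ring_nf
        rw [e1, mul_assoc 2, pow_mul 2 2]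
        apply pow_le_pow_left₀ (Real.exp_pos _).le
        linarith [Real.exp_one_lt_d9]
      have h9 : (E : ℝ) ≤ 2 ^ (D * l) := by exact_mod_cast hEl
      have h10 : (2 : ℝ) ^ (S - 2) ≤ 2 ^ (2 + D * l + 2 * 10 ^ 9 * L ^ 4) := by
        calc (2 : ℝ) ^ (S - 2) ≤ 4 * E * Real.exp (10 ^ 9 * (L : ℝ) ^ 4) := h1.trans hfin
          _ ≤ 4 * 2 ^ (D * l) * 2 ^ (2 * 10 ^ 9 * L ^ 4) := by gcongr
          _ = _ := by rw [pow_add, pow_add]; norm_num
      have h11 : S - 2 ≤ 2 + D * l + 2 * 10 ^ 9 * L ^ 4 :=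
        (pow_le_pow_iff_right₀ (by norm_num : (1 : ℝ) < 2)).1 h10
      have h12 : 2 * 10 ^ 9 * L ^ 4 = 2 * 10 ^ 9 * (2 * D + 8) ^ 4 * l ^ 4 := by
        rw [hL, mul_pow]; ring
      have h13 : 4 + D * l ≤ 100 * (D + 1) ^ 2 * l ^ 4 := by
        have h14 : D * l ≤ (D + 1) ^ 2 * l ^ 4 := by
          apply Nat.mul_le_mul _ hll
          nlinarith
        have h15 : 1 ≤ (D + 1) ^ 2 * l ^ 4 := Nat.mul_pos (by positivity) (by positivity)
        have h16 : 100 * (D + 1) ^ 2 * l ^ 4 = 100 * ((D + 1) ^ 2 * l ^ 4) := by ring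
        omega
      rw [h12] at h11
      omega
    · exact beta1 hw hev hi hij hm2 hn2 hmE hnE hnt he hf hef hWl hsj hA hB heq3
  · -- `j ≤ s`
    obtain ⟨hz, τ, hτ, hτe⟩ := forced hw hi hwi hij hs2 he hf hs.s1 hs.s2 hs.s3 hA hB hs.eq
    have hdvd : (w : ℤ) ^ j ∣ (1 + e * (w : ℤ) ^ i) ^ m - 1 := by
      have h1 : (w : ℤ) ^ j ∣ (1 + f * (w : ℤ) ^ j) ^ n - 1 := by
        have h2 := sub_dvd_pow_sub_pow (1 + f * (w : ℤ) ^ j) 1 n
        rw [one_pow, add_sub_cancel_left] at h2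
        exact (dvd_mul_left _ _).trans h2
      have h2 : (w : ℤ) ^ j ∣ τ * (w : ℤ) ^ s := dvd_mul_of_dvd_right (pow_dvd_pow _ hjs) _
      have h3 : (1 + e * (w : ℤ) ^ i) ^ m - 1 =
          τ * (w : ℤ) ^ s + ((1 + f * (w : ℤ) ^ j) ^ n - 1) := by linear_combination hτe
      rw [h3]
      exact dvd_add h2 h1
    have hji : j - i ≤ D * l := by
      rcases dvd_main hw hev hi hwi he (by omega) hdvd with h | h
      · omega
      · exact (Nat.pow_le_pow_iff_right (by norm_num : 1 < 2)).1 (h.trans (hmE.trans hEl))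
    have hH : 64 * E ^ 2 * w ^ (j - i) ≤ w ^ i := by
      have h1 : w ^ (j - i) ≤ 2 ^ (D * l * (D * l)) := by
        calc w ^ (j - i) ≤ (2 ^ (D * l)) ^ (j - i) := Nat.pow_le_pow_left hwl _
          _ = 2 ^ (D * l * (j - i)) := by rw [← pow_mul]
          _ ≤ _ := Nat.pow_le_pow_right (by norm_num) (Nat.mul_le_mul_left _ hji)
      have h2 : 64 * E ^ 2 * w ^ (j - i) * w ^ (j - i) ≤ w ^ i * w ^ (j - i) := by
        have h3 : w ^ i * w ^ (j - i) = w ^ j := by rw [← pow_add]; congr 1; omega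
        rw [h3]
        calc 64 * E ^ 2 * w ^ (j - i) * w ^ (j - i) ≤
              2 ^ (6 + 2 * (D * l)) * 2 ^ (D * l * (D * l)) * 2 ^ (D * l * (D * l)) :=
              Nat.mul_le_mul (Nat.mul_le_mul hEl2 h1) h1
          _ = 2 ^ (6 + 2 * (D * l) + D * l * (D * l) + D * l * (D * l)) := by
              rw [← pow_add, ← pow_add]
          _ ≤ 2 ^ (S - 2) := by
              apply Nat.pow_le_pow_right (by norm_num)
              have : 2 * (D * l) * (D * l) = D * l * (D * l) + D * l * (D * l) := by ring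
              omega
          _ ≤ w ^ j := hV2
      exact Nat.le_of_mul_le_mul_right h2 (by positivity)
    have hd : Data w i j m n E e f :=
      ⟨hw, hev, hi, hij, hm2, hn2, hmE, hnE, hnt, he, hf, hef, hH⟩
    exact hd.main hA hB heq3

end Pool.Agent.L5helper35.FC
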