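import Mathlib
import Pool.Agent.L5helper35.FC.Core
import Pool.Agent.R477.FC.FamMain
import Pool.Agent.N741.FC.NearAll

/-!
# Solutions whose bases are within one of powers of one integer
-/

set_option autoImplicit false

namespace Pool.Agent.L5helper35.FC

open Pool.Agent.R477.FC

/-- an odd exponent: the cofactor of `Y - 1` in `Y ^ q - 1` is odd -/
lemma odd_case {Y : ℤ} {q s : ℕ} (hY : Odd Y) (hq : Odd q) (h : (Y ^ q - 1).natAbs = 2 ^ s) :
    (Y ^ q - 1).natAbs = (Y - 1).natAbs := by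
  have h1 := geom_sum_mul Y q
  obtain ⟨G, hG⟩ : ∃ G, G = ∑ i ∈ Finset.range q, Y ^ i := ⟨_, rfl⟩
  rw [← hG] at h1
  have h2 : Odd G := by
    rw [← Int.not_even_iff_odd]
    intro hev
    have h3 : ((G : ℤ) : ZMod 2) = 0 := by
      rw [ZMod.intCast_zmod_eq_zero_iff_dvd]
      exact hev.two_dvd
    have hY1 : ((Y : ℤ) : ZMod 2) = 1 := by
      obtain ⟨k, hk⟩ := hY
      rw [hk]
      push_cast
      have : (2 : ZMod 2) = 0 := rfl
      rw [this, zero_mul, zero_add]
    rw [hG] at h3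
    push_cast at h3
    simp only [hY1, one_pow, Finset.sum_const, Finset.card_range, nsmul_eq_mul, mul_one] at h3
    obtain ⟨k, hk⟩ := hq
    rw [hk] at h3
    push_cast at h3
    have h4 : (2 : ZMod 2) = 0 := rfl
    rw [h4, zero_mul, zero_add] at h3
    exact absurd h3 (by decide)
  have h3 : G.natAbs ∣ 2 ^ s := by
    rw [← h, ← h1, Int.natAbs_mul]
    exact dvd_mul_right _ _
  have h4 : Nat.Coprime G.natAbs (2 ^ s) := by
    apply Nat.Coprime.pow_right
    rw [Nat.coprime_two_right]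
    exact Int.natAbs_odd.2 h2
  have h5 : G.natAbs = 1 := Nat.Coprime.eq_one_of_dvd h4 h3
  rw [← h1, Int.natAbs_mul, h5, one_mul]

/-- the perfect powers one more than a power of two -/
lemma cat1 {s y q : ℕ} (hs : 1 ≤ s) (hy : 2 ≤ y) (hq : 2 ≤ q) (h : 2 ^ s + 1 = y ^ q) :
    y ^ q ≤ 9 := by
  have h2s : Even (2 ^ s) := (by decide : Even 2).pow_of_ne_zero (by omega)
  have hyq : Odd (y ^ q) := by rw [← h]; exact h2s.add_one
  have hyo : Odd y := by
    rw [← Nat.not_even_iff_odd] at hyq ⊢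
    intro hev
    exact hyq (hev.pow_of_ne_zero (by omega))
  rcases Nat.even_or_odd q with hqe | hqo
  · obtain ⟨k, hk⟩ := hqe
    have hk1 : 1 ≤ k := by omega
    obtain ⟨u, hu⟩ : ∃ u, y ^ k = u + 1 := ⟨y ^ k - 1, by
      have : 1 ≤ y ^ k := Nat.one_le_pow _ _ (by omega)
      omega⟩
    have h1 : u * (u + 2) = 2 ^ s := by
      have h2 : (u + 1) * (u + 1) = 2 ^ s + 1 := by rw [← hu, ← pow_add, ← hk, h]
      have h3 : (u + 1) * (u + 1) = u * (u + 2) + 1 := by ring
      omega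
    have hd1 : u ∣ 2 ^ s := ⟨u + 2, h1.symm⟩
    have hd2 : u + 2 ∣ 2 ^ s := ⟨u, by rw [← h1]; ring⟩
    obtain ⟨a, -, ha⟩ := (Nat.dvd_prime_pow Nat.prime_two).1 hd1
    obtain ⟨b, -, hb⟩ := (Nat.dvd_prime_pow Nat.prime_two).1 hd2
    have hu2 : u = 2 := by
      rcases Nat.lt_or_ge a 2 with h5 | h5
      · have h6 : a = 0 ∨ a = 1 := by omega
        rcases h6 with rfl | rfl
        · rw [pow_zero] at ha
          rw [ha] at hb
          exfalso
          have h7 : b ≠ 0 := by rintro rfl; simp at hb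
          have h8 : Even (2 ^ b) := (by decide : Even 2).pow_of_ne_zero h7
          rw [← hb] at h8
          exact absurd h8 (by decide)
        · rw [ha, pow_one]
      · exfalso
        have h6 : 4 ∣ 2 ^ a := by
          have : (4 : ℕ) = 2 ^ 2 := by norm_num
          rw [this]
          exact pow_dvd_pow 2 h5
        have h7 : 2 ≤ b := by
          by_contra hcon
          have h8 : 2 ^ b ≤ 2 ^ 1 := Nat.pow_le_pow_right (by norm_num) (by omega)
          have h9 : 2 ^ 2 ≤ 2 ^ a := Nat.pow_le_pow_right (by norm_num) h5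
          omega
        have h8 : 4 ∣ 2 ^ b := by
          have : (4 : ℕ) = 2 ^ 2 := by norm_num
          rw [this]
          exact pow_dvd_pow 2 h7
        omega
    rw [hk, pow_add, hu, hu2]
    norm_num
  · exfalso
    have h1 : ((y : ℤ) ^ q - 1).natAbs = 2 ^ s := by
      have : (y : ℤ) ^ q - 1 = ((2 ^ s : ℕ) : ℤ) := by
        have : ((2 ^ s + 1 : ℕ) : ℤ) = ((y ^ q : ℕ) : ℤ) := by rw [h]
        push_cast at this ⊢
        linarith
      rw [this, Int.natAbs_natCast]
    have h2 := odd_case (by exact_mod_cast hyo) hqo h1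
    rw [h1] at h2
    have h3 : y < y ^ q := by
      calc y = y ^ 1 := (pow_one y).symm
        _ < y ^ q := Nat.pow_lt_pow_right (by omega) (by omega)
    have h4 : ((y : ℤ) - 1).natAbs = y - 1 := by omega
    omega

/-- no perfect power is one less than `2 ^ s`, `s ≥ 2` -/
lemma cat2 {s y q : ℕ} (hs : 2 ≤ s) (hy : 2 ≤ y) (hq : 2 ≤ q) (h : y ^ q + 1 = 2 ^ s) : False := by
  have h4s : 4 ∣ 2 ^ s := by
    have : (4 : ℕ) = 2 ^ 2 := by norm_num
    rw [this]
    exact pow_dvd_pow 2 hs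
  have hyo : Odd y := by
    rw [← Nat.not_even_iff_odd]
    intro hev
    have h1 : Even (y ^ q) := hev.pow_of_ne_zero (by omega)
    obtain ⟨k, hk⟩ := h1
    omega
  rcases Nat.even_or_odd q with hqe | hqo
  · obtain ⟨k, hk⟩ := hqe
    obtain ⟨v, hv⟩ := hyo.pow (n := k)
    have h1 : y ^ q = 4 * (v * v + v) + 1 := by
      rw [hk, pow_add, hv]; ring
    omega
  · have h1 : ((-(y : ℤ)) ^ q - 1).natAbs = 2 ^ s := by
      rw [hqo.neg_pow]
      have : -(y : ℤ) ^ q - 1 = -((2 ^ s : ℕ) : ℤ) := by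
        have : ((y ^ q + 1 : ℕ) : ℤ) = ((2 ^ s : ℕ) : ℤ) := by rw [h]
        push_cast at this ⊢
        linarith
      rw [this, Int.natAbs_neg, Int.natAbs_natCast]
    have h2 := odd_case (Odd.neg (by exact_mod_cast hyo)) hqo h1
    rw [h1] at h2
    have h3 : y < y ^ q := by
      calc y = y ^ 1 := (pow_one y).symm
        _ < y ^ q := Nat.pow_lt_pow_right (by omega) (by omega)
    have h4 : (-(y : ℤ) - 1).natAbs = y + 1 := by omega
    omega

/-- a base one, the third base a power of two -/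
lemma base_one {y z q r p c : ℕ} {e₁ e₂ e₃ : ℤ} (h : SSol 1 y z p q r e₁ e₂ e₃) (hc : 1 ≤ c)
    (hz : z = 2 ^ c) : y ^ q ≤ 9 ∧ z ^ r ≤ 9 := by
  have hz0 : 0 < z ^ r := by have := h.z0; positivity
  have hy0 : 0 < y ^ q := by have := h.y0; positivity
  have hzr : z ^ r = 2 ^ (c * r) := by rw [hz, ← pow_mul]
  have hr := h.r2
  have hcr : 2 ≤ c * r := by nlinarith
  have heq := h.eq
  have h3 := three (a := 1) (b := y ^ q) (c := z ^ r) one_pos hy0 hz0 h.s1 h.s2 h.s3 (by
    push_cast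
    rw [Nat.cast_one, one_pow] at heq
    exact heq)
  have h4 : 2 ^ 2 ≤ 2 ^ (c * r) := Nat.pow_le_pow_right (by norm_num) hcr
  rcases Nat.lt_or_ge y 2 with hy | hy
  · exfalso
    have hy1 : y = 1 := by have := h.y0; omega
    rw [hy1, one_pow] at h3
    omega
  rcases h3 with h3 | h3 | h3
  · exfalso
    exact cat2 hcr hy h.q2 (by omega)
  · omega
  · have h5 := cat1 (s := c * r) (by omega) hy h.q2 (by omega)
    omega

/-- two bases within one of powers of the even number `w`, the third a power of `w` -/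
theorem sym (κ : ℕ) : ∃ V : ℕ, ∀ (x y z p q r w a b c N : ℕ) (e f e₁ e₂ e₃ : ℤ),
    SSol x y z p q r e₁ e₂ e₃ → Hyp p q r → 2 ≤ w → Even w → 1 ≤ a → 1 ≤ b → 1 ≤ c →
    (x : ℤ) = w ^ a + e → Sgn e → (y : ℤ) = w ^ b + f → Sgn f → z = w ^ c → 1 ≤ N →
    N ≤ max x (max y z) → (w : ℝ) ≤ Real.log N ^ κ → x ^ p ≤ V ∧ y ^ q ≤ V ∧ z ^ r ≤ V := by
  obtain ⟨S₀, hS₀⟩ := core κ
  obtain ⟨V, hV⟩ := vals_fin (2 ^ (S₀ + 1))
  refine ⟨V + 9, ?_⟩
  -- the ordered normal case
  have key : ∀ (x y z p q r w i j c N : ℕ) (e f e₁ e₂ e₃ : ℤ),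
      SSol x y z p q r e₁ e₂ e₃ → ¬ (p = 2 ∧ q = 2) → 2 ≤ w → Even w → 1 ≤ i → 1 ≤ c → i ≤ j →
      (w = 2 → 2 ≤ i) → (x : ℤ) = w ^ i + e → Sgn e → (y : ℤ) = w ^ j + f → Sgn f → z = w ^ c →
      1 ≤ N → N ≤ max x (max y z) → (w : ℝ) ≤ Real.log N ^ κ →
      x ^ p ≤ V ∧ y ^ q ≤ V ∧ z ^ r ≤ V := by
    intro x y z p q r w i j c N e f e₁ e₂ e₃ h hnt hw hev hi hc hij hwi hx he hy hf hz hN1 hN hwN
    have hzr : z ^ r = w ^ (c * r) := by rw [hz, ← pow_mul]
    have hr := h.r2
    have hcr : r ≤ c * r := Nat.le_mul_of_pos_left r hc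
    have hs : SSol x y w p q (c * r) e₁ e₂ e₃ := by
      have hxw : Nat.Coprime x w := by
        have := h.xz
        rw [hz] at this
        exact Nat.Coprime.coprime_dvd_right (dvd_pow_self w (by omega)) this
      have hyw : Nat.Coprime y w := by
        have := h.yz
        rw [hz] at this
        exact Nat.Coprime.coprime_dvd_right (dvd_pow_self w (by omega)) this
      refine ⟨h.x0, h.y0, by omega, h.xy, hxw, hyw, h.p2, h.q2, by omega, h.s1, h.s2, h.s3, ?_⟩
      have h1 := h.eq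
      have h2 : (z : ℤ) ^ r = (w : ℤ) ^ (c * r) := by exact_mod_cast hzr
      rw [h2] at h1
      exact h1
    have hzs : z ≤ w ^ (c * r) := by
      rw [← hzr]
      exact Nat.le_self_pow (by omega) z
    have h1 := hS₀ w i j p q (c * r) x y N e f e₁ e₂ e₃ hw hev hi hij hwi hx hy he hf hnt hs hN1
      (hN.trans (max_le_max le_rfl (max_le_max le_rfl hzs))) hwN
    have hVpos : 0 < w ^ j := by positivity
    have h2 : w ^ j < 2 ^ S₀ := by
      calc w ^ j < 2 ^ (Nat.log 2 (w ^ j) + 1) := Nat.lt_pow_succ_log_self (by norm_num) _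
        _ ≤ 2 ^ S₀ := Nat.pow_le_pow_right (by norm_num) (by omega)
    have h3 : 2 ^ (S₀ + 1) = 2 * 2 ^ S₀ := by rw [pow_succ]; ring
    have hWV : w ^ i ≤ w ^ j := Nat.pow_le_pow_right (by omega) hij
    have hwV : w ≤ w ^ j := Nat.le_self_pow (by omega) w
    have hxb : x ≤ w ^ i + 1 := by
      have h1 : (w : ℤ) ^ i = ((w ^ i : ℕ) : ℤ) := by push_cast; rfl
      rw [h1] at hx
      rcases he with rfl | rfl <;> omega
    have hyb : y ≤ w ^ j + 1 := by
      have h1 : (w : ℤ) ^ j = ((w ^ j : ℕ) : ℤ) := by push_cast; rfl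
      rw [h1] at hy
      rcases hf with rfl | rfl <;> omega
    have h4 := hV x y w p q (c * r) e₁ e₂ e₃ hs (by omega) (by omega) (by omega)
    rw [hzr]
    exact h4
  -- normal forms
  have norm : ∀ (x w a : ℕ) (e : ℤ), 2 ≤ w → Even w → 1 ≤ a → (x : ℤ) = w ^ a + e → Sgn e →
      (x = 1 ∧ w = 2) ∨ ∃ (i : ℕ) (e' : ℤ), 1 ≤ i ∧ (w = 2 → 2 ≤ i) ∧ (x : ℤ) = w ^ i + e' ∧
        Sgn e' := by
    intro x w a e hw hev ha hx he
    by_cases h1 : w = 2 ∧ a = 1
    · obtain ⟨rfl, rfl⟩ := h1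
      rcases he with rfl | rfl
      · right
        refine ⟨2, -1, by norm_num, fun _ => le_rfl, ?_, Or.inr rfl⟩
        rw [hx]
        norm_num
      · left
        refine ⟨?_, rfl⟩
        have : (x : ℤ) = 1 := by rw [hx]; norm_num
        exact_mod_cast this
    · right
      refine ⟨a, e, ha, fun h2 => ?_, hx, he⟩
      by_contra hcon
      exact h1 ⟨h2, by omega⟩
  intro x y z p q r w a b c N e f e₁ e₂ e₃ h hyp hw hev ha hb hc hx he hy hf hz hN1 hN hwN
  have hnt : ¬ (p = 2 ∧ q = 2) := by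
    rintro ⟨rfl, rfl⟩
    unfold Hyp at hyp
    omega
  rcases norm x w a e hw hev ha hx he with ⟨hx1, hw2⟩ | ⟨i, e', hi, hwi, hx', he'⟩
  · subst hx1
    subst hw2
    have := base_one h hc hz
    rw [one_pow]
    omega
  rcases norm y w b f hw hev hb hy hf with ⟨hy1, hw2⟩ | ⟨j, f', hj, hwj, hy', hf'⟩
  · subst hy1
    subst hw2
    have := base_one h.rot.swap hc hz
    rw [one_pow]
    omega
  rcases Nat.le_total i j with hij | hij
  · have := key x y z p q r w i j c N e' f' e₁ e₂ e₃ h hnt hw hev hi hc hij hwi hx' he' hy' hf' hz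
      hN1 hN hwN
    omega
  · have := key y x z q p r w j i c N f' e' e₂ e₁ e₃ h.rot.swap (fun h => hnt ⟨h.2, h.1⟩) hw hev hj
      hc hij hwj hy' hf' hx' he' hz hN1 (by omega) hwN
    omega

/-- the value triples of the solutions all of whose bases are within
`max 1 (w / (log N) ^ κ)` of powers of one integer `w ≥ 2`, `N` the largest base -/
def NearUnit (κ : ℕ) : Set (ℕ × ℕ × ℕ) :=
  {v | ∃ x y z p q r w a b c : ℕ, 0 < x ∧ 0 < y ∧ 0 < z ∧ Nat.Coprime x y ∧ Nat.Coprime x z ∧
    Nat.Coprime y z ∧ 0 < p ∧ 0 < q ∧ 0 < r ∧ (1 : ℚ) / p + 1 / q + 1 / r < 1 ∧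
    x ^ p + y ^ q = z ^ r ∧ v = (x ^ p, y ^ q, z ^ r) ∧ 2 ≤ w ∧ 1 ≤ a ∧ 1 ≤ b ∧ 1 ≤ c ∧
    |(x : ℝ) - (w : ℝ) ^ a| ≤ max 1 (w / Real.log (max x (max y z) : ℕ) ^ κ) ∧
    |(y : ℝ) - (w : ℝ) ^ b| ≤ max 1 (w / Real.log (max x (max y z) : ℕ) ^ κ) ∧
    |(z : ℝ) - (w : ℝ) ^ c| ≤ max 1 (w / Real.log (max x (max y z) : ℕ) ^ κ)}

/-- from a real distance at most one to the three cases -/
lemma near_one {x w a : ℕ} (h : |(x : ℝ) - (w : ℝ) ^ a| ≤ 1) :
    x = w ^ a ∨ ∃ e : ℤ, Sgn e ∧ (x : ℤ) = w ^ a + e := by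
  have h1 : |((x : ℤ) : ℝ) - (((w : ℤ) ^ a : ℤ) : ℝ)| ≤ 1 := by
    push_cast
    exact h
  have h2 : |(x : ℤ) - (w : ℤ) ^ a| ≤ 1 := by exact_mod_cast h1
  obtain ⟨h3, h4⟩ := abs_le.1 h2
  have h5 : (x : ℤ) - (w : ℤ) ^ a = 0 ∨ (x : ℤ) - (w : ℤ) ^ a = 1 ∨
      (x : ℤ) - (w : ℤ) ^ a = -1 := by omega
  rcases h5 with h5 | h5 | h5
  · left
    have : (x : ℤ) = (w : ℤ) ^ a := by linarith
    exact_mod_cast this
  · exact Or.inr ⟨1, Or.inl rfl, by linarith⟩
  · exact Or.inr ⟨-1, Or.inr rfl, by linarith⟩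

/-- finitely many solutions have all their bases near powers of one integer `w ≥ 2` -/
theorem near_unit : ∃ κ : ℕ, (NearUnit κ).Finite := by
  obtain ⟨κ, hκ⟩ := Pool.Agent.N741.FC.near_all
  obtain ⟨V, hV⟩ := sym κ
  refine ⟨κ, ?_⟩
  refine (hκ.union ((Set.finite_Iic V).prod ((Set.finite_Iic V).prod (Set.finite_Iic V)))).subset ?_
  rintro v ⟨x, y, z, p, q, r, w, a, b, c, hx0, hy0, hz0, hxy, hxz, hyz, hp, hq, hr, hlt, heq, rfl,
    hw2, ha, hb, hc, hx, hy, hz⟩
  obtain ⟨hyp, hp2, hq2, hr2⟩ := hyp_of hp hq hr hlt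
  obtain ⟨N, hN⟩ : ∃ N : ℕ, N = max x (max y z) := ⟨_, rfl⟩
  rw [← hN] at hx hy hz
  -- `z ≥ 2`
  have hz2 : 2 ≤ z := by
    by_contra hcon
    have hz1 : z = 1 := by omega
    rw [hz1, one_pow] at heq
    have h1 : 0 < x ^ p := by positivity
    have h2 : 0 < y ^ q := by positivity
    omega
  have hzN : z ≤ N := hN ▸ (le_max_right _ _).trans (le_max_right _ _)
  have hN2 : 2 ≤ N := hz2.trans hzN
  have hlog : 0 < Real.log N := Real.log_pos (by exact_mod_cast (by omega : 1 < N))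
  have hlk : 0 < Real.log N ^ κ := by positivity
  rcases le_total 1 ((w : ℝ) / Real.log N ^ κ) with hcase | hcase
  · left
    rw [max_eq_right hcase, le_div_iff₀ hlk] at hx hy hz
    refine ⟨x, y, z, p, q, r, w, a, b, c, hx0, hy0, hz0, hxy, hxz, hyz, hp2, hq2, hr2, heq, rfl,
      hw2, ha, hb, hc, ?_, ?_, ?_⟩ <;> rw [← hN] <;> assumption
  · right
    rw [max_eq_left hcase] at hx hy hz
    have hwN : (w : ℝ) ≤ Real.log N ^ κ := by
      rwa [div_le_one hlk] at hcase
    have hs : SSol x y z p q r 1 1 (-1) := ⟨hx0, hy0, hz0, hxy, hxz, hyz, hp2, hq2, hr2, Or.inl rfl,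
      Or.inl rfl, Or.inr rfl, by
        have : (x : ℤ) ^ p + (y : ℤ) ^ q = (z : ℤ) ^ r := by exact_mod_cast heq
        linarith⟩
    have goal : x ^ p ≤ V ∧ y ^ q ≤ V ∧ z ^ r ≤ V := by
      -- two bases divisible by `w`
      have two : ∀ {u v a b : ℕ}, 1 ≤ a → 1 ≤ b → Nat.Coprime u v → u = w ^ a → v = w ^ b →
          False := by
        intro u v a b ha hb huv hu hv
        have h3 : w ∣ Nat.gcd u v := by
          rw [hu, hv]
          exact Nat.dvd_gcd (dvd_pow_self w (by omega)) (dvd_pow_self w (by omega))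
        rw [huv] at h3
        have := Nat.le_of_dvd one_pos h3
        omega
      -- parity
      have par : ∀ {u a : ℕ} {e : ℤ}, 1 ≤ a → Sgn e → (u : ℤ) = w ^ a + e → (Even w → Odd u) ∧
          (Odd w → Even u) := by
        intro u a e ha he hu
        have he' : Odd e := by rcases he with rfl | rfl <;> decide
        constructor
        · intro hw
          have h1 : Even ((w : ℤ) ^ a) :=
            ((Int.even_coe_nat w).2 hw).pow_of_ne_zero (by omega)
          have h2 : Odd (u : ℤ) := by rw [hu]; exact h1.add_odd he'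
          exact_mod_cast h2
        · intro hw
          have h1 : Odd ((w : ℤ) ^ a) := ((Int.odd_coe_nat w).2 hw).pow
          have h2 : Even (u : ℤ) := by rw [hu]; exact h1.add_odd he'
          exact_mod_cast h2
      have evev : ∀ {u v : ℕ}, Nat.Coprime u v → Even u → Even v → False := by
        intro u v huv hu hv
        have h3 : 2 ∣ Nat.gcd u v := Nat.dvd_gcd hu.two_dvd hv.two_dvd
        rw [huv] at h3
        omega
      rcases near_one hx with hx' | ⟨ex, hex, hx'⟩
      · rcases near_one hy with hy' | ⟨ey, hey, hy'⟩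
        · exact (two ha hb hxy hx' hy').elim
        rcases near_one hz with hz' | ⟨ez, hez, hz'⟩
        · exact (two ha hc hxz hx' hz').elim
        rcases Nat.even_or_odd w with hev | hod
        · -- `x` is the power
          have h1 := hV y z x q r p w b c a N ey ez _ _ _ hs.rot (by unfold Hyp at hyp ⊢; nlinarith)
            hw2 hev hb hc ha hy' hey hz' hez hx' (by omega) (by omega) hwN
          omega
        · exact (evev hyz ((par hb hey hy').2 hod) ((par hc hez hz').2 hod)).elim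
      · rcases near_one hy with hy' | ⟨ey, hey, hy'⟩
        · rcases near_one hz with hz' | ⟨ez, hez, hz'⟩
          · exact (two hb hc hyz hy' hz').elim
          rcases Nat.even_or_odd w with hev | hod
          · -- `y` is the power
            have h1 := hV z x y r p q w c a b N ez ex _ _ _ hs.rot.rot
              (by unfold Hyp at hyp ⊢; nlinarith)
              hw2 hev hc ha hb hz' hez hx' hex hy' (by omega) (by omega) hwN
            omega
          · exact (evev hxz ((par ha hex hx').2 hod) ((par hc hez hz').2 hod)).elim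
        rcases near_one hz with hz' | ⟨ez, hez, hz'⟩
        · rcases Nat.even_or_odd w with hev | hod
          · exact hV x y z p q r w a b c N ex ey _ _ _ hs hyp hw2 hev ha hb hc hx' hex hy' hey hz'
              (by omega) (by omega) hwN
          · exact (evev hxy ((par ha hex hx').2 hod) ((par hb hey hy').2 hod)).elim
        · rcases Nat.even_or_odd w with hev | hod
          · exfalso
            have h1 := ((par ha hex hx').1 hev).pow (n := p)
            have h2 := ((par hb hey hy').1 hev).pow (n := q)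
            have h3 := ((par hc hez hz').1 hev).pow (n := r)
            have h4 := h1.add_odd h2
            rw [heq] at h4
            exact (Nat.not_even_iff_odd.2 h3) h4
          · exact (evev hxy ((par ha hex hx').2 hod) ((par hb hey hy').2 hod)).elim
    simp only [Set.mem_prod, Set.mem_Iic]
    exact goal

end Pool.Agent.L5helper35.FC
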